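import Pool.Agent.Zk71.Rh.H

set_option autoImplicit false

open MeasureTheory Filter Topology Set Complex

namespace Pool.Agent.Zk71.Rh

variable {n : ℕ}

/-- if all Laurent coefficients of nonzero index vanish then the function is constant off the
coordinate hyperplanes -/
lemma const_of_coef {Ω : Set (Fin n → ℂ)} (hR : IsReinhardt Ω) {F : (Fin n → ℂ) → ℂ}
    (hF : ContinuousOn F Ω) {z : Fin n → ℂ} (hz : z ∈ Ω)
    (h0 : ∀ β : Fin n → ℤ, β ≠ 0 → avg F β z = 0) : F z = avg F 0 z := by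
  set G : C(UnitAddTorus (Fin n), ℂ) := ⟨fun t => F (rot t z), orbit_cont hR hF hz⟩ with hG
  have h1 : ∀ β, UnitAddTorus.mFourierCoeff G β = avg F β z := fun β => rfl
  have h2 : ∀ β, β ∉ ({0} : Finset (Fin n → ℤ)) → UnitAddTorus.mFourierCoeff G β = 0 := by
    intro β hβ
    rw [h1]
    exact h0 β (by simpa using hβ)
  have h3 : Summable (UnitAddTorus.mFourierCoeff G) := summable_of_ne_finset_zero h2
  have h4 := UnitAddTorus.hasSum_mFourier_series_apply_of_summable h3 0
  have h5 : HasSum (fun i => UnitAddTorus.mFourierCoeff G i • UnitAddTorus.mFourier i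
      (0 : UnitAddTorus (Fin n))) (∑ i ∈ ({0} : Finset (Fin n → ℤ)),
      UnitAddTorus.mFourierCoeff G i • UnitAddTorus.mFourier i (0 : UnitAddTorus (Fin n))) := by
    refine hasSum_sum_of_ne_finset_zero fun β hβ => ?_
    rw [h2 β hβ, zero_smul]
  have h6 := h4.unique h5
  rw [Finset.sum_singleton, h1, UnitAddTorus.mFourier_zero] at h6
  simpa [hG, rot_zero] using h6

namespace Dom

variable {Ω : Set (Fin n → ℂ)} (h : Dom Ω)

include h

/-- the powers of a coordinate belong to the Bergman space -/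
lemma SS_single (j : Fin n) (m : ℕ) : SS Ω (Pi.single j (m : ℤ)) := by
  have hfin := h.finite_restrict
  have h1 : ∀ z : Fin n → ℂ, mon (Pi.single j (m : ℤ)) z = z j ^ m := by
    intro z
    unfold mon
    rw [Finset.prod_eq_single j]
    · rw [Pi.single_eq_same, zpow_natCast]
    · intro i _ hi
      rw [Pi.single_eq_of_ne hi, zpow_zero]
    · intro hj
      exact absurd (Finset.mem_univ j) hj
  obtain ⟨R, hR⟩ := h.bdd.exists_norm_le
  have hm : MemLp (mon (Pi.single j (m : ℤ))) 2 (volume.restrict Ω) := by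
    refine MemLp.of_bound (measurable_mon _).aestronglyMeasurable (R ^ m) ?_
    filter_upwards [ae_restrict_mem h.isOpen.measurableSet] with z hz
    rw [h1, norm_pow]
    exact pow_le_pow_left₀ (norm_nonneg _) ((norm_le_pi_norm z j).trans (hR z hz)) m
  refine ⟨⟨hm.toLp, ⟨fun z => z j ^ m, ?_, ?_⟩⟩, hm.coeFn_toLp⟩
  · fun_prop
  · exact hm.coeFn_toLp.trans (Eventually.of_forall h1)

/-- the Laurent coefficients of nonzero index vanish -/
lemma coef_zero {f : (Fin n → ℂ) → ℂ} (hf : DifferentiableOn ℂ f Ω)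
    {H : bergman Ω →L[ℂ] Lp ℂ 2 (volume.restrict Ω)} (hH : IsHankelExtension Ω f H)
    {ι : Type*} (b : HilbertBasis ι ℂ (bergman Ω)) (hs : Summable fun i => ‖H (b i)‖ ^ 2)
    {β : Fin n → ℤ} (hβ : β ≠ 0) {c : ℂ} (hc : ∀ z ∈ Ω, z ∈ star n → avg f β z = c * mon β z) :
    c = 0 := by
  by_contra hc0
  obtain ⟨δ, hδ, hline⟩ := h.line_bound hf hH hc hc0 hβ
  obtain ⟨i, hi⟩ : ∃ i, β i ≠ 0 := by
    by_contra hcon
    push Not at hcon
    exact hβ (funext hcon)
  obtain ⟨j, hj⟩ : ∃ j : Fin n, j ≠ i := by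
    have h2 : 1 < Fintype.card (Fin n) := by
      rw [Fintype.card_fin]
      exact h.two
    exact Fintype.exists_ne_of_one_lt_card h2 i
  choose k₀ len hS hδ' using fun m : ℕ => hline (Pi.single j (m : ℤ)) (h.SS_single j m)
  -- the injection
  set φ : (Σ _ : ℕ, ℕ) → (Fin n → ℤ) := fun p =>
    Pi.single j (p.1 : ℤ) + (k₀ p.1 + p.2) • β with hφ
  have hinj : Function.Injective φ := by
    rintro ⟨m, k⟩ ⟨m', k'⟩ he
    simp only [hφ] at he
    have h1 := congrFun he i
    have h2 := congrFun he j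
    simp only [Pi.add_apply, Pi.smul_apply, Pi.single_eq_of_ne (Ne.symm hj), zero_add,
      smul_eq_mul, Pi.single_eq_same] at h1 h2
    have h3 := mul_right_cancel₀ hi h1
    rw [h3] at h2
    have h4 : (m : ℤ) = m' := add_right_cancel h2
    have h5 : m = m' := by exact_mod_cast h4
    subst h5
    have h6 : (k : ℤ) = k' := add_left_cancel h3
    have h7 : k = k' := by exact_mod_cast h6
    subst h7
    rfl
  set T : ℝ := ∑' i, ‖H (b i)‖ ^ 2 with hT
  have hM : ∀ M : ℕ, M * δ ≤ T := by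
    intro M
    set F : Finset (Fin n → ℤ) := ((Finset.range M).sigma fun m => Finset.range (len m)).map
      ⟨φ, hinj⟩ with hF
    have h1 : ∀ γ ∈ F, SS Ω γ := by
      intro γ hγ
      rw [hF, Finset.mem_map] at hγ
      obtain ⟨⟨m, k⟩, -, rfl⟩ := hγ
      exact hS m k
    have h2 := h.sum_hh_le b H hs h1
    refine le_trans ?_ h2
    rw [hF, Finset.sum_map, Finset.sum_sigma]
    have h3 : ∑ m ∈ Finset.range M, δ ≤ ∑ m ∈ Finset.range M, ∑ k ∈ Finset.range (len m),
        hh H (φ ⟨m, k⟩) := Finset.sum_le_sum fun m _ => hδ' m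
    simpa using h3
  obtain ⟨M, hM'⟩ := exists_nat_gt (T / δ)
  rw [div_lt_iff₀ hδ] at hM'
  linarith [hM M]

/-- the main theorem on bounded Reinhardt domains -/
theorem main {f : (Fin n → ℂ) → ℂ} (hf : DifferentiableOn ℂ f Ω)
    {H : bergman Ω →L[ℂ] Lp ℂ 2 (volume.restrict Ω)} (hH : IsHankelExtension Ω f H)
    {ι : Type*} (b : HilbertBasis ι ℂ (bergman Ω)) (hs : Summable fun i => ‖H (b i)‖ ^ 2) :
    H = 0 := by
  obtain ⟨c, hc⟩ := exists_coef h.isOpen h.conn h.rein hf 0
  have hconst : f =ᵐ[volume.restrict Ω] fun _ => c := by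
    filter_upwards [ae_restrict_mem h.isOpen.measurableSet,
      ae_restrict_of_ae (s := Ω) (ae_star (n := n))] with z hz hst
    have h1 := const_of_coef h.rein hf.continuousOn hz (fun β hβ => by
      obtain ⟨d, hd⟩ := exists_coef h.isOpen h.conn h.rein hf β
      rw [hd z hz hst, h.coef_zero hf hH b hs hβ hd, zero_mul])
    rw [h1, hc z hz hst, mon_zero, mul_one]
  ext1 g
  have hae : (fun z => (starRingEnd ℂ) (f z) * (g : Lp ℂ 2 (volume.restrict Ω)) z)
      =ᵐ[volume.restrict Ω] ((starRingEnd ℂ) c • (g : Lp ℂ 2 (volume.restrict Ω)) :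
        Lp ℂ 2 (volume.restrict Ω)) := by
    filter_upwards [hconst, Lp.coeFn_smul ((starRingEnd ℂ) c) (g : Lp ℂ 2 (volume.restrict Ω))]
      with z h1 h2
    rw [h1, h2, Pi.smul_apply, smul_eq_mul]
  have hg : MemLp (fun z => (starRingEnd ℂ) (f z) * (g : Lp ℂ 2 (volume.restrict Ω)) z) 2
      (volume.restrict Ω) := (memLp_congr_ae hae).2 (Lp.memLp _)
  have h1 : hg.toLp = (starRingEnd ℂ) c • (g : Lp ℂ 2 (volume.restrict Ω)) :=
    Lp.ext (hg.coeFn_toLp.trans hae)
  have h2 : hg.toLp ∈ bergman Ω := by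
    rw [h1]
    exact (bergman Ω).smul_mem _ g.2
  have h3 : H g ∈ bergman Ω := by
    have := (bergman Ω).sub_mem h2 (hH.sub_mem g hg)
    rwa [sub_sub_cancel] at this
  have h4 := hH.orth g hg (H g) h3
  simpa using h4

end Dom

end Pool.Agent.Zk71.Rh
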