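import Pool.Agent.Zk71.Rh.Defs

set_option autoImplicit false

open MeasureTheory Filter Topology Set Complex

namespace Pool.Agent.Zk71.Rh

variable {n : ℕ}

/-- Haar probability measure on the torus -/
noncomputable def τ (n : ℕ) : Measure (UnitAddTorus (Fin n)) :=
  Measure.pi fun _ => AddCircle.haarAddCircle

instance : IsProbabilityMeasure (τ n) := by unfold τ; infer_instance

instance : (τ n).IsAddLeftInvariant := by unfold τ; infer_instance

instance : (τ n).IsAddRightInvariant := by unfold τ; infer_instance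

/-- rotation -/
noncomputable def rot (t : UnitAddTorus (Fin n)) (z : Fin n → ℂ) : Fin n → ℂ :=
  fun j => (AddCircle.toCircle (t j) : ℂ) * z j

lemma rot_zero (z : Fin n → ℂ) : rot 0 z = z := by
  funext j
  simp [rot]

lemma rot_add (s t : UnitAddTorus (Fin n)) (z : Fin n → ℂ) : rot (s + t) z = rot s (rot t z) := by
  funext j
  simp [rot, AddCircle.toCircle_add, mul_assoc]

lemma rot_neg_rot (t : UnitAddTorus (Fin n)) (z : Fin n → ℂ) : rot (-t) (rot t z) = z := by
  rw [← rot_add, neg_add_cancel, rot_zero]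

lemma rot_rot_neg (t : UnitAddTorus (Fin n)) (z : Fin n → ℂ) : rot t (rot (-t) z) = z := by
  rw [← rot_add, add_neg_cancel, rot_zero]

lemma norm_rot_apply (t : UnitAddTorus (Fin n)) (z : Fin n → ℂ) (j : Fin n) :
    ‖rot t z j‖ = ‖z j‖ := by
  rw [rot, norm_mul, Circle.norm_coe, one_mul]

lemma continuous_rot : Continuous fun p : UnitAddTorus (Fin n) × (Fin n → ℂ) => rot p.1 p.2 := by
  unfold rot
  refine continuous_pi fun j => ?_
  have h1 : Continuous fun p : UnitAddTorus (Fin n) × (Fin n → ℂ) =>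
      AddCircle.toCircle (p.1 j) := by
    have := AddCircle.continuous_toCircle (T := 1)
    fun_prop
  exact (continuous_subtype_val.comp h1).mul (by fun_prop)

lemma continuous_rot_left (z : Fin n → ℂ) : Continuous fun t => rot t z :=
  continuous_rot.comp (by fun_prop : Continuous fun t : UnitAddTorus (Fin n) => (t, z))

lemma continuous_rot_right (t : UnitAddTorus (Fin n)) : Continuous (rot t) :=
  continuous_rot.comp (by fun_prop : Continuous fun z : Fin n → ℂ => (t, z))

/-- rotation as a continuous linear map -/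
noncomputable def rotL (t : UnitAddTorus (Fin n)) : (Fin n → ℂ) →L[ℂ] (Fin n → ℂ) :=
  ContinuousLinearMap.pi fun j => (AddCircle.toCircle (t j) : ℂ) • ContinuousLinearMap.proj j

lemma rotL_apply (t : UnitAddTorus (Fin n)) (z : Fin n → ℂ) : rotL t z = rot t z := by
  funext j
  simp [rotL, rot]

lemma hasFDerivAt_rot (t : UnitAddTorus (Fin n)) (z : Fin n → ℂ) :
    HasFDerivAt (rot t) (rotL t) z := by
  have : rot t = rotL t := by funext z; rw [rotL_apply]
  rw [this]
  exact (rotL t).hasFDerivAt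

lemma norm_rotL_le (t : UnitAddTorus (Fin n)) : ‖rotL t‖ ≤ 1 := by
  refine ContinuousLinearMap.opNorm_le_bound _ zero_le_one fun z => ?_
  rw [one_mul, rotL_apply]
  refine (pi_norm_le_iff_of_nonneg (norm_nonneg _)).2 fun j => ?_
  rw [norm_rot_apply]
  exact norm_le_pi_norm z j

lemma measurePreserving_rot (t : UnitAddTorus (Fin n)) :
    MeasurePreserving (rot t) (volume : Measure (Fin n → ℂ)) volume := by
  refine volume_preserving_pi (f := fun j w => (AddCircle.toCircle (t j) : ℂ) * w) fun j => ?_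
  exact (rotation (AddCircle.toCircle (t j))).measurePreserving

lemma IsReinhardt.rot_mem {Ω : Set (Fin n → ℂ)} (h : IsReinhardt Ω) (t : UnitAddTorus (Fin n))
    {z : Fin n → ℂ} (hz : z ∈ Ω) : rot t z ∈ Ω := by
  have : ∀ x : UnitAddCircle, ∃ θ : ℝ, (AddCircle.toCircle x : ℂ) = cexp (θ * I) := by
    intro x
    exact ⟨Complex.arg (AddCircle.toCircle x : ℂ), by
      have := Complex.norm_mul_exp_arg_mul_I (AddCircle.toCircle x : ℂ)
      rw [Circle.norm_coe, Complex.ofReal_one, one_mul] at this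
      exact this.symm⟩
  choose θ hθ using this
  have h2 := h z hz fun j => θ (t j)
  convert h2 using 1
  funext j
  rw [rot, hθ]

lemma IsReinhardt.rot_mem_iff {Ω : Set (Fin n → ℂ)} (h : IsReinhardt Ω)
    (t : UnitAddTorus (Fin n)) {z : Fin n → ℂ} : rot t z ∈ Ω ↔ z ∈ Ω := by
  refine ⟨fun hz => ?_, h.rot_mem t⟩
  have := h.rot_mem (-t) hz
  rwa [rot_neg_rot] at this

lemma IsReinhardt.preimage {Ω : Set (Fin n → ℂ)} (h : IsReinhardt Ω)
    (t : UnitAddTorus (Fin n)) : rot t ⁻¹' Ω = Ω := by
  ext z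
  exact h.rot_mem_iff t

lemma IsReinhardt.measurePreserving {Ω : Set (Fin n → ℂ)} (h : IsReinhardt Ω)
    (hm : MeasurableSet Ω) (t : UnitAddTorus (Fin n)) :
    MeasurePreserving (rot t) (volume.restrict Ω) (volume.restrict Ω) := by
  have := (measurePreserving_rot t).restrict_preimage hm
  rwa [h.preimage] at this

/-- Laurent monomials (with the value of `0 ^ (-k)` being `0`). -/
noncomputable def mon (γ : Fin n → ℤ) (z : Fin n → ℂ) : ℂ := ∏ j, z j ^ γ j

lemma mon_rot (γ : Fin n → ℤ) (t : UnitAddTorus (Fin n)) (z : Fin n → ℂ) :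
    mon γ (rot t z) = UnitAddTorus.mFourier γ t * mon γ z := by
  unfold mon rot UnitAddTorus.mFourier
  simp only [ContinuousMap.coe_mk]
  rw [← Finset.prod_mul_distrib]
  refine Finset.prod_congr rfl fun j _ => ?_
  rw [mul_zpow, fourier_apply, AddCircle.toCircle_zsmul, Circle.coe_zpow]

/-- the points with nonzero coordinates -/
def star (n : ℕ) : Set (Fin n → ℂ) := {z | ∀ j, z j ≠ 0}

lemma mem_star {z : Fin n → ℂ} : z ∈ star n ↔ ∀ j, z j ≠ 0 := Iff.rfl

lemma isOpen_star : IsOpen (star n) := by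
  have : star n = ⋂ j : Fin n, {z : Fin n → ℂ | z j ≠ 0} := by
    ext z
    simp [star]
  rw [this]
  exact isOpen_iInter_of_finite fun j => isOpen_ne.preimage (continuous_apply j)

lemma rot_mem_star {t : UnitAddTorus (Fin n)} {z : Fin n → ℂ} : rot t z ∈ star n ↔ z ∈ star n := by
  simp only [mem_star]
  refine forall_congr' fun j => ?_
  rw [← norm_ne_zero_iff, norm_rot_apply, norm_ne_zero_iff]

lemma ae_star : ∀ᵐ z : Fin n → ℂ, z ∈ star n := by
  have : ∀ j : Fin n, ∀ᵐ z : Fin n → ℂ, z j ≠ 0 := by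
    intro j
    rw [ae_iff]
    have h := Measure.pi_hyperplane (fun _ : Fin n => (volume : Measure ℂ)) j 0
    rw [← volume_pi] at h
    simpa using h
  exact ae_all_iff.2 this

lemma mon_ne_zero {γ : Fin n → ℤ} {z : Fin n → ℂ} (hz : z ∈ star n) : mon γ z ≠ 0 :=
  Finset.prod_ne_zero_iff.2 fun j _ => zpow_ne_zero _ (hz j)

lemma mon_add {γ δ : Fin n → ℤ} {z : Fin n → ℂ} (hz : z ∈ star n) :
    mon (γ + δ) z = mon γ z * mon δ z := by
  unfold mon
  rw [← Finset.prod_mul_distrib]
  exact Finset.prod_congr rfl fun j _ => zpow_add₀ (hz j) _ _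

lemma mon_zero (z : Fin n → ℂ) : mon (0 : Fin n → ℤ) z = 1 := by simp [mon]

lemma mon_sub {γ δ : Fin n → ℤ} {z : Fin n → ℂ} (hz : z ∈ star n) :
    mon (γ - δ) z = mon γ z / mon δ z := by
  rw [eq_div_iff (mon_ne_zero hz), ← mon_add hz, sub_add_cancel]

lemma differentiableAt_prod {f : Fin n → (Fin n → ℂ) → ℂ} {z : Fin n → ℂ}
    (h : ∀ j, DifferentiableAt ℂ (f j) z) : DifferentiableAt ℂ (fun z => ∏ j, f j z) z := by
  classical
  have := (HasFDerivAt.finsetProd (u := Finset.univ) (fun j (_ : j ∈ Finset.univ) =>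
    (h j).hasFDerivAt)).differentiableAt
  exact this

lemma differentiableOn_mon (γ : Fin n → ℤ) : DifferentiableOn ℂ (mon γ) (star n) := by
  intro z hz
  refine DifferentiableAt.differentiableWithinAt ?_
  exact differentiableAt_prod fun j => (differentiableAt_apply j z).zpow (Or.inl (hz j))

lemma measurable_mon (γ : Fin n → ℤ) : Measurable (mon γ) := by
  unfold mon
  refine Finset.measurable_prod _ fun j _ => ?_
  exact (measurable_pi_apply j).pow_const (γ j)

end Pool.Agent.Zk71.Rh
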