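import Pool.Agent.Zk71.Rh.A
import Pool.Agent.Y785.MV.Osg

set_option autoImplicit false

open MeasureTheory Filter Topology Set Complex

namespace Pool.Agent.Zk71.Rh

variable {n : ℕ}

/-- the component of weight `β` -/
noncomputable def avg (F : (Fin n → ℂ) → ℂ) (β : Fin n → ℤ) (z : Fin n → ℂ) : ℂ :=
  ∫ t, UnitAddTorus.mFourier (-β) t * F (rot t z) ∂(τ n)

lemma norm_mF (β : Fin n → ℤ) (t : UnitAddTorus (Fin n)) : ‖UnitAddTorus.mFourier β t‖ ≤ 1 := by
  have := (UnitAddTorus.mFourier β).norm_coe_le_norm t
  rwa [UnitAddTorus.mFourier_norm] at this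

lemma orbit_cont {Ω : Set (Fin n → ℂ)} (hR : IsReinhardt Ω) {E : Type*} [TopologicalSpace E]
    {F : (Fin n → ℂ) → E} (hF : ContinuousOn F Ω) {z : Fin n → ℂ} (hz : z ∈ Ω) :
    Continuous fun t => F (rot t z) :=
  hF.comp_continuous (continuous_rot_left z) fun t => hR.rot_mem t hz

lemma differentiableOn_avg {Ω : Set (Fin n → ℂ)} (hΩ : IsOpen Ω) (hR : IsReinhardt Ω)
    {F : (Fin n → ℂ) → ℂ} (hF : DifferentiableOn ℂ F Ω) (β : Fin n → ℤ) :
    DifferentiableOn ℂ (avg F β) Ω := by
  intro z₀ hz₀
  have hcd := Helper417.Mer.Hartogs673.contDiffOn_of_differentiableOn hΩ hF 1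
  have hfd : ContinuousOn (fderiv ℂ F) Ω := hcd.continuousOn_fderiv_of_isOpen hΩ (by norm_num)
  obtain ⟨r, hr, hball⟩ := Metric.nhds_basis_closedBall.mem_iff.1 (hΩ.mem_nhds hz₀)
  -- the compact set swept by the ball
  set K : Set (Fin n → ℂ) := (fun p : UnitAddTorus (Fin n) × (Fin n → ℂ) => rot p.1 p.2) ''
    (univ ×ˢ Metric.closedBall z₀ r) with hK
  have hKc : IsCompact K := (isCompact_univ.prod (isCompact_closedBall z₀ r)).image continuous_rot
  have hKΩ : K ⊆ Ω := by
    rintro _ ⟨⟨t, z⟩, ⟨-, hz⟩, rfl⟩
    exact hR.rot_mem t (hball hz)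
  obtain ⟨C, hC⟩ := hKc.exists_bound_of_continuousOn (hfd.mono hKΩ)
  have hd : ∀ (t : UnitAddTorus (Fin n)), ∀ z ∈ Metric.ball z₀ r,
      HasFDerivAt (fun z => UnitAddTorus.mFourier (-β) t * F (rot t z))
        (UnitAddTorus.mFourier (-β) t • (fderiv ℂ F (rot t z)).comp (rotL t)) z := by
    intro t z hz
    have hzΩ : rot t z ∈ Ω := hR.rot_mem t (hball (Metric.ball_subset_closedBall hz))
    have h1 : HasFDerivAt F (fderiv ℂ F (rot t z)) (rot t z) :=
      ((hF _ hzΩ).differentiableAt (hΩ.mem_nhds hzΩ)).hasFDerivAt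
    exact (h1.comp z (hasFDerivAt_rot t z)).const_mul _
  have hmF : Continuous fun t : UnitAddTorus (Fin n) => UnitAddTorus.mFourier (-β) t :=
    (UnitAddTorus.mFourier (-β)).continuous
  have hcont : ∀ z ∈ Ω, Continuous fun t => UnitAddTorus.mFourier (-β) t * F (rot t z) :=
    fun z hz => hmF.mul (orbit_cont hR hF.continuousOn hz)
  have key := hasFDerivAt_integral_of_dominated_of_fderiv_le (μ := τ n) (𝕜 := ℂ)
    (F := fun z t => UnitAddTorus.mFourier (-β) t * F (rot t z))
    (F' := fun z t => UnitAddTorus.mFourier (-β) t • (fderiv ℂ F (rot t z)).comp (rotL t))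
    (x₀ := z₀) (s := Metric.ball z₀ r) (bound := fun _ => C)
    (Metric.ball_mem_nhds z₀ hr) ?_ ?_ ?_ ?_ ?_ ?_
  · exact key.differentiableAt.differentiableWithinAt
  · filter_upwards [hΩ.mem_nhds hz₀] with z hz
    exact (hcont z hz).aestronglyMeasurable
  · refine Integrable.of_bound (hcont z₀ hz₀).aestronglyMeasurable
      (‖BoundedContinuousFunction.mkOfCompact ⟨_, hcont z₀ hz₀⟩‖) (Eventually.of_forall fun t => ?_)
    exact (BoundedContinuousFunction.mkOfCompact ⟨_, hcont z₀ hz₀⟩).norm_coe_le_norm t
  · have h1 : Continuous fun t : UnitAddTorus (Fin n) => rotL t := by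
      have h2 : ∀ j : Fin n, Continuous fun t : UnitAddTorus (Fin n) =>
          ((AddCircle.toCircle (t j) : ℂ)) := fun j =>
        continuous_subtype_val.comp (AddCircle.continuous_toCircle.comp (continuous_apply j))
      have h3 : (fun t : UnitAddTorus (Fin n) => rotL t) = fun t => ∑ j : Fin n,
          ((AddCircle.toCircle (t j) : ℂ)) •
            ((ContinuousLinearMap.single ℂ (fun _ : Fin n => ℂ) j).comp
              (ContinuousLinearMap.proj j) : (Fin n → ℂ) →L[ℂ] (Fin n → ℂ)) := by
        funext t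
        ext z i
        simp [rotL, Finset.sum_apply, Pi.single_apply]
      rw [h3]
      exact continuous_finsetSum _ fun j _ => (h2 j).smul continuous_const
    have h2 := orbit_cont hR hfd hz₀
    exact (hmF.smul (h2.clm_comp h1)).aestronglyMeasurable
  · refine Eventually.of_forall fun t z hz => ?_
    rw [norm_smul]
    have h1 : ‖fderiv ℂ F (rot t z)‖ ≤ C :=
      hC _ ⟨(t, z), ⟨mem_univ _, Metric.ball_subset_closedBall hz⟩, rfl⟩
    have hC0 : 0 ≤ C := (norm_nonneg _).trans h1
    calc ‖UnitAddTorus.mFourier (-β) t‖ * ‖(fderiv ℂ F (rot t z)).comp (rotL t)‖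
        ≤ 1 * (C * 1) := by
          gcongr
          · exact norm_mF _ _
          · refine (ContinuousLinearMap.opNorm_comp_le _ _).trans ?_
            gcongr
            exact norm_rotL_le t
      _ = C := by ring
  · exact integrable_const C
  · exact Eventually.of_forall fun t z hz => hd t z hz

lemma avg_rot (F : (Fin n → ℂ) → ℂ) (β : Fin n → ℤ) (s : UnitAddTorus (Fin n)) (z : Fin n → ℂ) :
    avg F β (rot s z) = UnitAddTorus.mFourier β s * avg F β z := by
  unfold avg
  rw [← integral_const_mul]
  have h := integral_add_right_eq_self (μ := τ n)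
    (fun t => UnitAddTorus.mFourier β s * (UnitAddTorus.mFourier (-β) t * F (rot t z))) s
  rw [← h]
  refine integral_congr_ae (Eventually.of_forall fun t => ?_)
  simp only
  rw [rot_add, ← mul_assoc]
  congr 1
  have h1 : UnitAddTorus.mFourier β s * UnitAddTorus.mFourier (-β) (t + s) =
      UnitAddTorus.mFourier (-β) t := by
    have h2 : UnitAddTorus.mFourier (-β) (t + s) =
        UnitAddTorus.mFourier (-β) t * UnitAddTorus.mFourier (-β) s := by
      unfold UnitAddTorus.mFourier
      simp only [ContinuousMap.coe_mk]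
      rw [← Finset.prod_mul_distrib]
      refine Finset.prod_congr rfl fun j _ => ?_
      simp [fourier_apply, AddCircle.toCircle_add, smul_add]
    rw [h2, mul_comm, mul_assoc, ← UnitAddTorus.mFourier_add, neg_add_cancel,
      UnitAddTorus.mFourier_zero]
    simp
  exact h1.symm

/-- A holomorphic function invariant under rotations is locally constant at points with nonzero
coordinates. -/
lemma fderiv_zero_of_inv {U : Set (Fin n → ℂ)} (hU : IsOpen U) {G : (Fin n → ℂ) → ℂ}
    (hG : DifferentiableOn ℂ G U) (hinv : ∀ t, ∀ z, G (rot t z) = G z) {z : Fin n → ℂ}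
    (hz : z ∈ U) (hs : z ∈ star n) : fderiv ℂ G z = 0 := by
  classical
  have hGd : HasFDerivAt G (fderiv ℂ G z) z := ((hG z hz).differentiableAt (hU.mem_nhds hz)).hasFDerivAt
  have key : ∀ j : Fin n, fderiv ℂ G z (Pi.single j 1) = 0 := by
    intro j
    -- the curve
    have hc : HasDerivAt (fun s : ℝ => Function.update z j (cexp (s * I) * z j))
        (Pi.single j (I * z j)) 0 := by
      rw [hasDerivAt_pi]
      intro i
      by_cases hij : i = j
      · subst hij
        simp only [Function.update_self, Pi.single_eq_same]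
        have h1 : HasDerivAt (fun s : ℝ => cexp (s * I)) (cexp ((0 : ℝ) * I) * I) 0 := by
          have h2 : HasDerivAt (fun s : ℝ => (s : ℂ) * I) (1 * I) 0 :=
            (Complex.ofRealCLM.hasDerivAt (x := 0)).mul_const I
          rw [one_mul] at h2
          exact h2.cexp
        have h3 := h1.mul_const (z i)
        simpa using h3
      · simp only [Function.update_of_ne hij, Pi.single_eq_of_ne hij]
        exact hasDerivAt_const _ _
    have hc0 : Function.update z j (cexp (((0 : ℝ) : ℂ) * I) * z j) = z := by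
      simp
    have hG' : HasFDerivAt G ((fderiv ℂ G z).restrictScalars ℝ)
        (Function.update z j (cexp (((0 : ℝ) : ℂ) * I) * z j)) := by
      rw [hc0]
      exact hGd.restrictScalars ℝ
    have hcomp := HasFDerivAt.comp_hasDerivAt (0 : ℝ) hG' hc
    have hconst : (G ∘ fun s : ℝ => Function.update z j (cexp (s * I) * z j)) = fun _ => G z := by
      funext s
      simp only [Function.comp]
      have : Function.update z j (cexp (s * I) * z j) =
          rot (Pi.single j ((s / (2 * Real.pi) : ℝ) : UnitAddCircle)) z := by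
        funext i
        by_cases hij : i = j
        · subst hij
          simp only [Function.update_self, rot, Pi.single_eq_same]
          rw [AddCircle.toCircle_apply_mk, Circle.coe_exp]
          congr 3
          push_cast
          have : (Real.pi : ℂ) ≠ 0 := by exact_mod_cast Real.pi_ne_zero
          field_simp
        · simp [Function.update_of_ne hij, rot, Pi.single_eq_of_ne hij]
      rw [this, hinv]
    rw [hconst] at hcomp
    have h4 := hcomp.unique (hasDerivAt_const (0 : ℝ) (G z))
    have h5 : fderiv ℂ G z (Pi.single j (I * z j)) = 0 := h4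
    have h6 : (Pi.single j (I * z j) : Fin n → ℂ) = (I * z j) • Pi.single j (1 : ℂ) := by
      rw [← Pi.single_smul, smul_eq_mul, mul_one]
    rw [h6, map_smul, smul_eq_mul] at h5
    rcases mul_eq_zero.1 h5 with h7 | h7
    · rcases mul_eq_zero.1 h7 with h8 | h8
      · exact absurd h8 Complex.I_ne_zero
      · exact absurd h8 (hs j)
    · exact h7
  ext v
  have hv : v = ∑ j, v j • (Pi.single j (1 : ℂ) : Fin n → ℂ) := by
    funext i
    simp [Finset.sum_apply, Pi.single_apply]
  rw [hv, map_sum]
  simp [key]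

end Pool.Agent.Zk71.Rh
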