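import Pool.Agent.Zk71.Rh.B

set_option autoImplicit false

open MeasureTheory Filter Topology Set Complex

namespace Pool.Agent.Zk71.Rh

variable {n : ℕ}

/-- a nonempty open set contains a point with nonzero coordinates -/
lemma exists_star {Ω : Set (Fin n → ℂ)} (hΩ : IsOpen Ω) (hne : Ω.Nonempty) :
    ∃ z ∈ Ω, z ∈ star n := by
  by_contra hcon
  push Not at hcon
  have h1 : (volume : Measure (Fin n → ℂ)) Ω = 0 := by
    have h2 := ae_star (n := n)
    rw [ae_iff] at h2
    refine measure_mono_null ?_ h2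
    exact fun z hz => hcon z hz
  exact (hΩ.measure_pos volume hne).ne' h1

lemma mon_split (β : Fin n → ℤ) {z : Fin n → ℂ} (hz : z ∈ star n) :
    mon β z * ∏ j, z j ^ (-β j).toNat = ∏ j, z j ^ (β j).toNat := by
  unfold mon
  rw [← Finset.prod_mul_distrib]
  refine Finset.prod_congr rfl fun j _ => ?_
  have h1 : (z j) ^ (-β j).toNat = (z j) ^ (((-β j).toNat : ℕ) : ℤ) := (zpow_natCast _ _).symm
  have h2 : (z j) ^ (β j).toNat = (z j) ^ (((β j).toNat : ℕ) : ℤ) := (zpow_natCast _ _).symm
  rw [h1, h2, ← zpow_add₀ (hz j)]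
  congr 1
  rcases le_total 0 (β j) with h | h
  · rw [Int.toNat_of_nonneg h, Int.toNat_of_nonpos (by omega)]
    simp
  · rw [Int.toNat_of_nonpos h, Int.toNat_of_nonneg (by omega)]
    simp

/-- a holomorphic function of weight `β` on a Reinhardt domain is a multiple of the monomial -/
lemma weight_eq {Ω : Set (Fin n → ℂ)} (hΩ : IsOpen Ω) (hc : IsConnected Ω)
    {F : (Fin n → ℂ) → ℂ} (hF : DifferentiableOn ℂ F Ω) (β : Fin n → ℤ)
    (hw : ∀ t z, F (rot t z) = UnitAddTorus.mFourier β t * F z) :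
    ∃ c : ℂ, ∀ z ∈ Ω, z ∈ star n → F z = c * mon β z := by
  obtain ⟨z₀, hz₀, hs₀⟩ := exists_star hΩ hc.nonempty
  set U : Set (Fin n → ℂ) := Ω ∩ star n with hU
  have hUo : IsOpen U := hΩ.inter isOpen_star
  set G : (Fin n → ℂ) → ℂ := fun z => F z / mon β z with hG
  have hGd : DifferentiableOn ℂ G U := by
    have h1 : DifferentiableOn ℂ (fun z => (mon β z)⁻¹) U :=
      ((differentiableOn_mon β).mono inter_subset_right).inv fun z hz => mon_ne_zero hz.2
    have h2 := (hF.mono (inter_subset_left (t := star n))).mul h1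
    exact h2.congr fun z _ => by simp only [hG, div_eq_mul_inv, Pi.mul_apply]
  have hGinv : ∀ t, ∀ z, G (rot t z) = G z := by
    intro t z
    simp only [hG]
    rw [hw, mon_rot]
    have h1 : UnitAddTorus.mFourier β t ≠ 0 := by
      have h2 : UnitAddTorus.mFourier (-β) t * UnitAddTorus.mFourier β t = 1 := by
        rw [← UnitAddTorus.mFourier_add, neg_add_cancel, UnitAddTorus.mFourier_zero]
        simp
      intro h3
      rw [h3, mul_zero] at h2
      exact zero_ne_one h2
    exact mul_div_mul_left _ _ h1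
  have hfd : ∀ z ∈ U, fderiv ℂ G z = 0 := fun z hz =>
    fderiv_zero_of_inv hUo hGd hGinv hz hz.2
  obtain ⟨r, hr, hball⟩ := Metric.isOpen_iff.1 hUo z₀ ⟨hz₀, hs₀⟩
  have hconst : ∀ z ∈ Metric.ball z₀ r, G z = G z₀ := by
    intro z hz
    have := (convex_ball z₀ r).is_const_of_fderivWithin_eq_zero (𝕜 := ℂ) (f := G)
      (hGd.mono hball) (fun x hx => by
        rw [fderivWithin_of_isOpen Metric.isOpen_ball hx]
        exact hfd x (hball hx)) hz (Metric.mem_ball_self hr)
    exact this
  refine ⟨G z₀, fun z hz hs => ?_⟩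
  set A : (Fin n → ℂ) → ℂ := fun z => F z * ∏ j, z j ^ (-β j).toNat with hA
  set B : (Fin n → ℂ) → ℂ := fun z => G z₀ * ∏ j, z j ^ (β j).toNat with hB
  have hAd : AnalyticOnNhd ℂ A Ω := by
    refine Y785.MV.Osg.analytic hΩ (hF.mul ?_)
    exact fun z _ => (differentiableAt_prod fun j =>
      (differentiableAt_apply j z).pow _).differentiableWithinAt
  have hBd : AnalyticOnNhd ℂ B Ω := by
    refine Y785.MV.Osg.analytic hΩ ((differentiableOn_const _).mul ?_)
    exact fun z _ => (differentiableAt_prod fun j =>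
      (differentiableAt_apply j z).pow _).differentiableWithinAt
  have hev : A =ᶠ[𝓝 z₀] B := by
    filter_upwards [Metric.ball_mem_nhds z₀ hr] with z hz
    have h1 := hconst z hz
    have h2 : z ∈ star n := (hball hz).2
    simp only [hA, hB]
    rw [← mon_split β h2, ← h1]
    simp only [hG]
    have h3 := mon_ne_zero (γ := β) h2
    field_simp
  have hAB := hAd.eqOn_of_preconnected_of_eventuallyEq hBd hc.isPreconnected hz₀ hev hz
  simp only [hA, hB] at hAB
  rw [← mon_split β hs, ← mul_assoc] at hAB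
  have h4 : ∏ j, z j ^ (-β j).toNat ≠ 0 := Finset.prod_ne_zero_iff.2 fun j _ =>
    pow_ne_zero _ (hs j)
  exact mul_right_cancel₀ h4 hAB

/-- Laurent coefficients -/
lemma exists_coef {Ω : Set (Fin n → ℂ)} (hΩ : IsOpen Ω) (hc : IsConnected Ω) (hR : IsReinhardt Ω)
    {F : (Fin n → ℂ) → ℂ} (hF : DifferentiableOn ℂ F Ω) (β : Fin n → ℤ) :
    ∃ c : ℂ, ∀ z ∈ Ω, z ∈ star n → avg F β z = c * mon β z :=
  weight_eq hΩ hc (differentiableOn_avg hΩ hR hF β) β (avg_rot F β)

/-- torus averaging of an integral over `Ω` -/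
lemma integral_eq_avg {Ω : Set (Fin n → ℂ)} (hΩ : IsOpen Ω) (hR : IsReinhardt Ω)
    (hb : Bornology.IsBounded Ω) {Φ : (Fin n → ℂ) → ℂ} (hΦ : Measurable Φ) {C : ℝ}
    (hC : ∀ z, ‖Φ z‖ ≤ C) :
    ∫ z in Ω, Φ z = ∫ z in Ω, ∫ t, Φ (rot t z) ∂(τ n) := by
  have hfin : IsFiniteMeasure (volume.restrict Ω) :=
    ⟨by rw [Measure.restrict_apply_univ]; exact hb.measure_lt_top⟩
  have h1 : Integrable (Function.uncurry fun (z : Fin n → ℂ) (t : UnitAddTorus (Fin n)) =>
      Φ (rot t z)) ((volume.restrict Ω).prod (τ n)) := by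
    refine Integrable.of_bound ?_ C (Eventually.of_forall fun p => hC _)
    exact (hΦ.comp (continuous_rot.measurable.comp measurable_swap)).aestronglyMeasurable
  rw [integral_integral_swap h1]
  have h2 : ∀ t : UnitAddTorus (Fin n), ∫ z in Ω, Φ (rot t z) = ∫ z in Ω, Φ z := by
    intro t
    have hm := hR.measurePreserving hΩ.measurableSet t
    exact hm.integral_comp' (f := (Homeomorph.toMeasurableEquiv
      { toFun := rot t, invFun := rot (-t), left_inv := rot_neg_rot t,
        right_inv := rot_rot_neg t, continuous_toFun := continuous_rot_right t,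
        continuous_invFun := continuous_rot_right (-t) })) Φ
  simp_rw [h2]
  simp

/-- the pairing of a holomorphic function with a function of weight `-β` supported in a compact
rotation invariant set -/
lemma pairing {Ω : Set (Fin n → ℂ)} (hΩ : IsOpen Ω) (hR : IsReinhardt Ω)
    (hb : Bornology.IsBounded Ω) {F : (Fin n → ℂ) → ℂ} (hF : DifferentiableOn ℂ F Ω)
    {β : Fin n → ℤ} {c : ℂ} (hc : ∀ z ∈ Ω, z ∈ star n → avg F β z = c * mon β z)
    {K : Set (Fin n → ℂ)} (hK : IsCompact K) (hKΩ : K ⊆ Ω) (hKs : K ⊆ star n)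
    (hKR : ∀ t z, rot t z ∈ K ↔ z ∈ K) {q : (Fin n → ℂ) → ℂ} (hq : Measurable q) {C : ℝ}
    (hqb : ∀ z ∈ K, ‖q z‖ ≤ C)
    (hqw : ∀ t z, q (rot t z) = UnitAddTorus.mFourier (-β) t * q z) :
    ∫ z in Ω, K.indicator (fun z => q z * F z) z = c * ∫ z in Ω, K.indicator (fun z => q z * mon β z) z := by
  obtain ⟨M, hM⟩ := hK.exists_bound_of_continuousOn (hF.continuousOn.mono hKΩ)
  have hKm : MeasurableSet K := hK.isClosed.measurableSet
  have hΦm : Measurable (K.indicator fun z => q z * F z) := by
    have h1 : Measurable (K.indicator F) := by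
      classical
      rw [← Set.piecewise_eq_indicator]
      exact (hF.continuousOn.mono hKΩ).measurable_piecewise continuousOn_const hKm
    have h3 : (K.indicator fun z => q z * F z) = fun z => q z * K.indicator F z := by
      funext z
      simp only [indicator]
      split_ifs <;> simp
    rw [h3]
    exact hq.mul h1
  have hΦb : ∀ z, ‖K.indicator (fun z => q z * F z) z‖ ≤ |C| * |M| := by
    intro z
    by_cases hz : z ∈ K
    · rw [indicator_of_mem hz, norm_mul]
      gcongr
      · exact (hqb z hz).trans (le_abs_self C)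
      · exact (hM z hz).trans (le_abs_self M)
    · rw [indicator_of_notMem hz, norm_zero]
      positivity
  rw [integral_eq_avg hΩ hR hb hΦm hΦb, ← integral_const_mul]
  refine setIntegral_congr_fun hΩ.measurableSet fun z _ => ?_

  by_cases hz : z ∈ K
  · rw [indicator_of_mem hz]
    have h1 : ∀ t, K.indicator (fun z => q z * F z) (rot t z) =
        q z * (UnitAddTorus.mFourier (-β) t * F (rot t z)) := by
      intro t
      rw [indicator_of_mem ((hKR t z).2 hz), hqw]
      ring
    simp_rw [h1]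
    rw [integral_const_mul]
    change q z * avg F β z = _
    rw [hc z (hKΩ hz) (hKs hz)]
    ring
  · rw [indicator_of_notMem hz]
    have h1 : ∀ t, K.indicator (fun z => q z * F z) (rot t z) = 0 := by
      intro t
      rw [indicator_of_notMem (fun h => hz ((hKR t z).1 h))]
    simp_rw [h1]
    simp

end Pool.Agent.Zk71.Rh
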