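import Pool.Agent.Zk71.Rh.C

set_option autoImplicit false

open MeasureTheory Filter Topology Set Complex

namespace Pool.Agent.Zk71.Rh

variable {n : ℕ}

/-! ### a compact exhaustion -/

/-- rotation invariant compact sets exhausting the part of `Ω` off the coordinate hyperplanes -/
def KK (Ω : Set (Fin n → ℂ)) (j : ℕ) : Set (Fin n → ℂ) :=
  {z | 1 / ((j : ℝ) + 1) ≤ Metric.infDist z Ωᶜ ∧ ∀ i, 1 / ((j : ℝ) + 1) ≤ ‖z i‖}

/-- bounded Reinhardt domains -/
structure Dom (Ω : Set (Fin n → ℂ)) : Prop where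
  isOpen : IsOpen Ω
  conn : IsConnected Ω
  bdd : Bornology.IsBounded Ω
  rein : IsReinhardt Ω
  two : 2 ≤ n

namespace Dom

variable {Ω : Set (Fin n → ℂ)} (h : Dom Ω)

include h

lemma compl_nonempty : Ωᶜ.Nonempty := by
  have : Nonempty (Fin n) := ⟨⟨0, by have := h.two; omega⟩⟩
  have : Nontrivial (Fin n → ℂ) := inferInstance
  by_contra hne
  rw [not_nonempty_iff_eq_empty, compl_empty_iff] at hne
  have h1 := h.bdd
  rw [hne] at h1
  exact (NormedSpace.unbounded_univ ℂ (Fin n → ℂ)) h1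

lemma isClosed_KK (j : ℕ) : IsClosed (KK Ω j) := by
  have : KK Ω j = {z : Fin n → ℂ | 1 / ((j : ℝ) + 1) ≤ Metric.infDist z Ωᶜ} ∩
      ⋂ i, {z : Fin n → ℂ | 1 / ((j : ℝ) + 1) ≤ ‖z i‖} := by
    ext z; simp [KK]
  rw [this]
  refine (isClosed_le continuous_const (Metric.continuous_infDist_pt _)).inter ?_
  exact isClosed_iInter fun i => isClosed_le continuous_const (by fun_prop)

omit h in
lemma KK_subset (j : ℕ) : KK Ω j ⊆ Ω := by
  intro z hz
  by_contra hcon
  have h1 : Metric.infDist z Ωᶜ = 0 := Metric.infDist_zero_of_mem hcon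
  have h2 := hz.1
  rw [h1] at h2
  have : (0 : ℝ) < 1 / ((j : ℝ) + 1) := by positivity
  linarith

omit h in
lemma KK_star (j : ℕ) : KK Ω j ⊆ star n := by
  intro z hz i hi
  have h1 := hz.2 i
  rw [hi, norm_zero] at h1
  have : (0 : ℝ) < 1 / ((j : ℝ) + 1) := by positivity
  linarith

lemma isCompact_KK (j : ℕ) : IsCompact (KK Ω j) :=
  Metric.isCompact_of_isClosed_isBounded (h.isClosed_KK j) (h.bdd.subset (KK_subset j))

omit h in
lemma isometry_rot (t : UnitAddTorus (Fin n)) : Isometry (rot t) := by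
  refine Isometry.of_dist_eq fun x y => ?_
  rw [dist_eq_norm, dist_eq_norm]
  have e : rot t x - rot t y = rot t (x - y) := by
    funext i
    simp [rot, mul_sub]
  rw [e]
  simp only [Pi.norm_def]
  congr 1
  refine Finset.sup_congr rfl fun i _ => ?_
  rw [← NNReal.coe_inj, coe_nnnorm, coe_nnnorm, norm_rot_apply]

lemma KK_rot (j : ℕ) (t : UnitAddTorus (Fin n)) (z : Fin n → ℂ) : rot t z ∈ KK Ω j ↔ z ∈ KK Ω j := by
  have h1 : rot t '' Ωᶜ = Ωᶜ := by
    ext w
    constructor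
    · rintro ⟨v, hv, rfl⟩
      exact fun hc => hv (h.rein.rot_mem_iff t |>.1 hc)
    · intro hw
      refine ⟨rot (-t) w, fun hc => hw ?_, rot_rot_neg t w⟩
      exact (h.rein.rot_mem_iff (-t)).1 hc
  have h2 : Metric.infDist (rot t z) Ωᶜ = Metric.infDist z Ωᶜ := by
    conv_lhs => rw [← h1]
    exact Metric.infDist_image (isometry_rot t)
  simp only [KK, mem_ofPred_eq, h2, norm_rot_apply]

lemma ae_mem_KK : ∀ᵐ z ∂(volume.restrict Ω), ∀ᶠ j in atTop, z ∈ KK Ω j := by
  filter_upwards [ae_restrict_mem h.isOpen.measurableSet,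
    ae_restrict_of_ae (s := Ω) (ae_star (n := n))] with z hz hs
  have h1 : 0 < Metric.infDist z Ωᶜ := by
    have := (h.isOpen.isClosed_compl.notMem_iff_infDist_pos h.compl_nonempty).1
      (show z ∉ Ωᶜ from fun hc => hc hz)
    exact this
  have h2 : Tendsto (fun j : ℕ => 1 / ((j : ℝ) + 1)) atTop (𝓝 0) :=
    tendsto_one_div_add_atTop_nhds_zero_nat
  have h3 : ∀ i, ∀ᶠ j : ℕ in atTop, 1 / ((j : ℝ) + 1) < ‖z i‖ := fun i =>
    h2.eventually_lt_const (norm_pos_iff.2 (hs i))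
  filter_upwards [h2.eventually_lt_const h1, eventually_all.2 h3] with j h4 h5
  exact ⟨h4.le, fun i => (h5 i).le⟩

lemma aecover : AECover (volume.restrict Ω) atTop (KK Ω) :=
  ⟨h.ae_mem_KK, fun j => (h.isClosed_KK j).measurableSet⟩

lemma finite_restrict : IsFiniteMeasure (volume.restrict Ω) :=
  ⟨by rw [Measure.restrict_apply_univ]; exact h.bdd.measure_lt_top⟩

/-- truncated norms of the monomials -/
noncomputable def _root_.Pool.Agent.Zk71.Rh.aa (Ω : Set (Fin n → ℂ)) (j : ℕ) (γ : Fin n → ℤ) : ℝ :=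
  ∫ z in Ω, (KK Ω j).indicator (fun z => ‖mon γ z‖ ^ 2) z

omit h in
lemma continuousOn_mon (γ : Fin n → ℤ) (j : ℕ) : ContinuousOn (mon γ) (KK Ω j) :=
  (differentiableOn_mon γ).continuousOn.mono (KK_star j)

lemma mon_bdd (γ : Fin n → ℤ) (j : ℕ) : ∃ C, 0 ≤ C ∧ ∀ z ∈ KK Ω j, ‖mon γ z‖ ≤ C := by
  obtain ⟨C, hC⟩ := (h.isCompact_KK j).exists_bound_of_continuousOn (continuousOn_mon γ j)
  exact ⟨|C|, abs_nonneg _, fun z hz => (hC z hz).trans (le_abs_self C)⟩

lemma integrable_ind {q : (Fin n → ℂ) → ℝ} (hq : Measurable q) (j : ℕ) {C : ℝ}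
    (hC : ∀ z ∈ KK Ω j, |q z| ≤ C) :
    Integrable (fun z => (KK Ω j).indicator q z) (volume.restrict Ω) := by
  have := h.finite_restrict
  refine Integrable.of_bound (hq.indicator (h.isClosed_KK j).measurableSet).aestronglyMeasurable
    |C| (Eventually.of_forall fun z => ?_)
  by_cases hz : z ∈ KK Ω j
  · rw [indicator_of_mem hz, Real.norm_eq_abs]
    exact (hC z hz).trans (le_abs_self C)
  · rw [indicator_of_notMem hz, norm_zero]
    exact abs_nonneg _

lemma integrable_mon_ind (γ : Fin n → ℤ) (j : ℕ) :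
    Integrable (fun z => (KK Ω j).indicator (fun z => ‖mon γ z‖ ^ 2) z) (volume.restrict Ω) := by
  obtain ⟨C, hC0, hC⟩ := h.mon_bdd γ j
  refine h.integrable_ind ((measurable_mon γ).norm.pow_const 2) j (C := C ^ 2) fun z hz => ?_
  rw [abs_of_nonneg (by positivity)]
  have := hC z hz
  gcongr

omit h in
lemma aa_nonneg (γ : Fin n → ℤ) (j : ℕ) : 0 ≤ aa Ω j γ := by
  unfold aa
  refine integral_nonneg fun z => ?_
  exact indicator_nonneg (fun _ _ => by positivity) _

omit h in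
lemma norm_mon_add {γ δ : Fin n → ℤ} {z : Fin n → ℂ} (hz : z ∈ star n) :
    ‖mon (γ + δ) z‖ ^ 2 = ‖mon γ z‖ ^ 2 * ‖mon δ z‖ ^ 2 := by
  rw [mon_add hz, norm_mul, mul_pow]

/-- first moment identity -/
lemma moment_one (γ β : Fin n → ℤ) (m : ℝ) (j : ℕ) :
    ∫ z in Ω, (KK Ω j).indicator (fun z => ‖mon γ z‖ ^ 2 * (‖mon β z‖ ^ 2 - m)) z =
      aa Ω j (γ + β) - m * aa Ω j γ := by
  unfold aa
  rw [← integral_const_mul, ← integral_sub (h.integrable_mon_ind _ j)
    ((h.integrable_mon_ind _ j).const_mul m)]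
  refine integral_congr_ae (Eventually.of_forall fun z => ?_)
  simp only
  by_cases hz : z ∈ KK Ω j
  · rw [indicator_of_mem hz, indicator_of_mem hz, indicator_of_mem hz, norm_mon_add (KK_star j hz)]
    ring
  · rw [indicator_of_notMem hz, indicator_of_notMem hz, indicator_of_notMem hz]
    ring

/-- second moment identity -/
lemma moment_two (γ β : Fin n → ℤ) (m : ℝ) (j : ℕ) :
    ∫ z in Ω, (KK Ω j).indicator (fun z => ‖mon γ z‖ ^ 2 * (‖mon β z‖ ^ 2 - m) ^ 2) z =
      aa Ω j (γ + β + β) - 2 * m * aa Ω j (γ + β) + m ^ 2 * aa Ω j γ := by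
  unfold aa
  rw [← integral_const_mul, ← integral_const_mul, ← integral_sub (h.integrable_mon_ind _ j)
    ((h.integrable_mon_ind _ j).const_mul _), ← integral_add]
  rotate_left
  · exact (h.integrable_mon_ind _ j).sub ((h.integrable_mon_ind _ j).const_mul _)
  · exact (h.integrable_mon_ind _ j).const_mul _
  refine integral_congr_ae (Eventually.of_forall fun z => ?_)
  simp only
  by_cases hz : z ∈ KK Ω j
  · rw [indicator_of_mem hz, indicator_of_mem hz, indicator_of_mem hz, indicator_of_mem hz,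
      norm_mon_add (KK_star j hz), norm_mon_add (KK_star j hz)]
    ring
  · rw [indicator_of_notMem hz, indicator_of_notMem hz, indicator_of_notMem hz,
      indicator_of_notMem hz]
    ring

end Dom

end Pool.Agent.Zk71.Rh
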