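import Mathlib

set_option autoImplicit false

open MeasureTheory

namespace Pool.Agent.Zk71.Rh

variable {n : ℕ}

/-- Reinhardt sets: invariant under rotations of each coordinate. -/
def IsReinhardt (Ω : Set (Fin n → ℂ)) : Prop :=
  ∀ z ∈ Ω, ∀ θ : Fin n → ℝ, (fun j => Complex.exp (θ j * Complex.I) * z j) ∈ Ω

/-- The Bergman space `A²(Ω)`: the classes in `L²(Ω)` (Lebesgue measure) of holomorphic
functions. -/
def bergman (Ω : Set (Fin n → ℂ)) : Submodule ℂ (Lp ℂ 2 (volume.restrict Ω)) where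
  carrier := {u | ∃ g : (Fin n → ℂ) → ℂ, DifferentiableOn ℂ g Ω ∧ u =ᵐ[volume.restrict Ω] g}
  add_mem' := by
    rintro u v ⟨g, hg, hu⟩ ⟨k, hk, hv⟩
    refine ⟨fun z => g z + k z, hg.add hk, ?_⟩
    filter_upwards [hu, hv, Lp.coeFn_add u v] with z h1 h2 h3
    rw [h3, Pi.add_apply, h1, h2]
  zero_mem' := by
    refine ⟨fun _ => 0, differentiableOn_const 0, ?_⟩
    filter_upwards [Lp.coeFn_zero ℂ 2 (volume.restrict Ω)] with z h1
    rw [h1, Pi.zero_apply]
  smul_mem' := by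
    rintro c u ⟨g, hg, hu⟩
    refine ⟨fun z => c * g z, (differentiableOn_const c).mul hg, ?_⟩
    filter_upwards [hu, Lp.coeFn_smul c u] with z h1 h3
    rw [h3, Pi.smul_apply, h1, smul_eq_mul]

/-- `H` is a bounded operator from `A²(Ω)` to `L²(Ω)` which extends the Hankel operator
`H_{\bar f} g = (I - P)(\bar f g)`, defined on the `g ∈ A²(Ω)` with `\bar f g ∈ L²(Ω)`, and this
domain is dense in `A²(Ω)`. Here `(I - P) v` is the vector `w ∈ L²(Ω)` orthogonal to `A²(Ω)` with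
`v - w ∈ A²(Ω)`. -/
structure IsHankelExtension (Ω : Set (Fin n → ℂ)) (f : (Fin n → ℂ) → ℂ)
    (H : bergman Ω →L[ℂ] Lp ℂ 2 (volume.restrict Ω)) : Prop where
  /-- the domain of the Hankel operator is dense in the Bergman space -/
  dense : Dense {g : bergman Ω |
    MemLp (fun z => (starRingEnd ℂ) (f z) * (g : Lp ℂ 2 (volume.restrict Ω)) z) 2
      (volume.restrict Ω)}
  /-- `\bar f g - H g` belongs to the Bergman space -/
  sub_mem : ∀ (g : bergman Ω)
    (hg : MemLp (fun z => (starRingEnd ℂ) (f z) * (g : Lp ℂ 2 (volume.restrict Ω)) z) 2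
      (volume.restrict Ω)), hg.toLp - H g ∈ bergman Ω
  /-- `H g` is orthogonal to the Bergman space -/
  orth : ∀ g : bergman Ω,
    MemLp (fun z => (starRingEnd ℂ) (f z) * (g : Lp ℂ 2 (volume.restrict Ω)) z) 2
      (volume.restrict Ω) → ∀ u ∈ bergman Ω, inner ℂ u (H g) = 0

end Pool.Agent.Zk71.Rh
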