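import Pool.Agent.Zk71.Rh.D

set_option autoImplicit false

open MeasureTheory Filter Topology Set Complex

namespace Pool.Agent.Zk71.Rh

variable {n : ℕ}


namespace Dom

variable {Ω : Set (Fin n → ℂ)} (h : Dom Ω)

include h

/-- bounded measurable functions supported in `KK Ω j` -/
lemma memLp_ind {q : (Fin n → ℂ) → ℂ} {j : ℕ}
    (hq : Measurable ((KK Ω j).indicator q)) {C : ℝ} (hC : ∀ z ∈ KK Ω j, ‖q z‖ ≤ C) :
    MemLp ((KK Ω j).indicator q) 2 (volume.restrict Ω) := by
  have := h.finite_restrict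
  refine MemLp.of_bound hq.aestronglyMeasurable |C| (Eventually.of_forall fun z => ?_)
  by_cases hz : z ∈ KK Ω j
  · rw [indicator_of_mem hz]
    exact (hC z hz).trans (le_abs_self C)
  · rw [indicator_of_notMem hz, norm_zero]
    exact abs_nonneg _

lemma measurable_ind_hol {F : (Fin n → ℂ) → ℂ} (hF : DifferentiableOn ℂ F Ω) (j : ℕ) :
    Measurable ((KK Ω j).indicator F) := by
  classical
  rw [← Set.piecewise_eq_indicator]
  exact (hF.continuousOn.mono (KK_subset j)).measurable_piecewise continuousOn_const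
    (h.isClosed_KK j).measurableSet

lemma mFourier_conj (γ : Fin n → ℤ) (t : UnitAddTorus (Fin n)) :
    (starRingEnd ℂ) (UnitAddTorus.mFourier γ t) = UnitAddTorus.mFourier (-γ) t :=
  UnitAddTorus.mFourier_neg.symm

/-- the test function -/
noncomputable def _root_.Pool.Agent.Zk71.Rh.ww (γ β : Fin n → ℤ) (m : ℝ) (z : Fin n → ℂ) : ℂ :=
  mon γ z * ((‖mon β z‖ ^ 2 - m : ℝ) : ℂ)

omit h in
lemma measurable_ww (γ β : Fin n → ℤ) (m : ℝ) : Measurable (ww γ β m) := by
  unfold ww
  refine (measurable_mon γ).mul (Complex.measurable_ofReal.comp ?_)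
  exact ((measurable_mon β).norm.pow_const 2).sub_const m

lemma ww_bdd (γ β : Fin n → ℤ) (m : ℝ) (j : ℕ) :
    ∃ C, 0 ≤ C ∧ ∀ z ∈ KK Ω j, ‖ww γ β m z‖ ≤ C := by
  obtain ⟨C, hC0, hC⟩ := h.mon_bdd γ j
  obtain ⟨D, hD0, hD⟩ := h.mon_bdd β j
  refine ⟨C * (D ^ 2 + |m|), by positivity, fun z hz => ?_⟩
  unfold ww
  rw [norm_mul, Complex.norm_real, Real.norm_eq_abs]
  have h1 := hC z hz
  have h2 := hD z hz
  have h3 : |‖mon β z‖ ^ 2 - m| ≤ D ^ 2 + |m| := by
    refine (abs_sub _ _).trans ?_
    rw [abs_of_nonneg (by positivity : (0 : ℝ) ≤ ‖mon β z‖ ^ 2)]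
    gcongr
  gcongr

lemma norm_mon_rot (β : Fin n → ℤ) (t : UnitAddTorus (Fin n)) (z : Fin n → ℂ) :
    ‖mon β (rot t z)‖ = ‖mon β z‖ := by
  unfold mon
  rw [norm_prod, norm_prod]
  refine Finset.prod_congr rfl fun i _ => ?_
  rw [norm_zpow, norm_zpow, norm_rot_apply]

lemma ww_rot (γ β : Fin n → ℤ) (m : ℝ) (t : UnitAddTorus (Fin n)) (z : Fin n → ℂ) :
    ww γ β m (rot t z) = UnitAddTorus.mFourier γ t * ww γ β m z := by
  unfold ww
  rw [mon_rot, h.norm_mon_rot]
  ring

/-- The key inequality. -/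
lemma key {f : (Fin n → ℂ) → ℂ} (hf : DifferentiableOn ℂ f Ω)
    {H : bergman Ω →L[ℂ] Lp ℂ 2 (volume.restrict Ω)} (hH : IsHankelExtension Ω f H)
    {α β : Fin n → ℤ} {c : ℂ} (hc : ∀ z ∈ Ω, z ∈ star n → avg f β z = c * mon β z)
    (u : bergman Ω) (hu : (u : Lp ℂ 2 (volume.restrict Ω)) =ᵐ[volume.restrict Ω] mon α)
    (j : ℕ) (m : ℝ)
    (hγ : ∀ g : (Fin n → ℂ) → ℂ, DifferentiableOn ℂ g Ω → MemLp g 2 (volume.restrict Ω) →
      ∀ d : ℂ, (∀ z ∈ Ω, z ∈ star n → avg g (α - β) z = d * mon (α - β) z) →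
        d * ((aa Ω j α - m * aa Ω j (α - β) : ℝ) : ℂ) = 0)
    (hm : m ^ 2 * aa Ω j (α - β) = m * aa Ω j α) :
    ‖c‖ ^ 2 * (aa Ω j (α + β) - m * aa Ω j α) ≤ ‖H u‖ ^ 2 := by
  set γ := α - β with hγd
  have hγβ : γ + β = α := sub_add_cancel _ _
  obtain ⟨C, hC0, hC⟩ := h.ww_bdd γ β m j
  obtain ⟨M, hM⟩ := (h.isCompact_KK j).exists_bound_of_continuousOn
    (hf.continuousOn.mono (KK_subset j))
  have hKm : MeasurableSet (KK Ω j) := (h.isClosed_KK j).measurableSet
  -- the two test vectors
  have hw : MemLp ((KK Ω j).indicator (ww γ β m)) 2 (volume.restrict Ω) :=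
    h.memLp_ind ((measurable_ww γ β m).indicator hKm) hC
  have hwfm : Measurable ((KK Ω j).indicator fun z => ww γ β m z * f z) := by
    have h3 : ((KK Ω j).indicator fun z => ww γ β m z * f z) =
        fun z => ww γ β m z * (KK Ω j).indicator f z := by
      funext z
      simp only [indicator]
      split_ifs <;> simp
    rw [h3]
    exact (measurable_ww γ β m).mul (h.measurable_ind_hol hf j)
  have hwf : MemLp ((KK Ω j).indicator fun z => ww γ β m z * f z) 2 (volume.restrict Ω) := by
    refine h.memLp_ind hwfm (C := C * |M|) fun z hz => ?_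
    rw [norm_mul]
    have h1 := hC z hz
    have h2 := (hM z hz).trans (le_abs_self M)
    gcongr
  set w : Lp ℂ 2 (volume.restrict Ω) := hw.toLp with hwd
  set wf : Lp ℂ 2 (volume.restrict Ω) := hwf.toLp with hwfd
  have hwae := hw.coeFn_toLp
  have hwfae := hwf.coeFn_toLp
  set v : ℝ := aa Ω j (α + β) - m * aa Ω j α with hv
  -- pairing with the Bergman space
  have horth : ∀ g ∈ bergman Ω, inner ℂ w g = 0 := by
    rintro g ⟨g', hg', hgg'⟩
    obtain ⟨d, hd⟩ := exists_coef h.isOpen h.conn h.rein hg' γ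
    have hgL : MemLp g' 2 (volume.restrict Ω) := (memLp_congr_ae hgg').1 (Lp.memLp g)
    have h0 := hγ g' hg' hgL d hd
    have h1 := pairing h.isOpen h.rein h.bdd hg' (β := γ) hd (h.isCompact_KK j) (KK_subset j)
      (KK_star j) (h.KK_rot j) (q := fun z => (starRingEnd ℂ) (ww γ β m z))
      (Complex.continuous_conj.measurable.comp (measurable_ww γ β m)) (C := C)
      (fun z hz => by rw [RCLike.norm_conj]; exact hC z hz)
      (fun t z => by simp only [h.ww_rot, map_mul, h.mFourier_conj])
    rw [L2.inner_def]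
    have h2 : ∫ z in Ω, inner ℂ (w z) (g z) =
        ∫ z in Ω, (KK Ω j).indicator (fun z => (starRingEnd ℂ) (ww γ β m z) * g' z) z := by
      refine integral_congr_ae ?_
      filter_upwards [hwae, hgg'] with z h3 h4
      rw [hwd, h3, h4, RCLike.inner_apply]
      by_cases hz : z ∈ KK Ω j
      · rw [indicator_of_mem hz, indicator_of_mem hz, mul_comm]
      · rw [indicator_of_notMem hz, indicator_of_notMem hz, map_zero, mul_zero]
    rw [h2, h1]
    have h3 : ∫ z in Ω, (KK Ω j).indicator (fun z => (starRingEnd ℂ) (ww γ β m z) * mon γ z) z =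
        ((aa Ω j α - m * aa Ω j γ : ℝ) : ℂ) := by
      rw [← hγβ, ← h.moment_one γ β m j, ← integral_complex_ofReal]
      refine integral_congr_ae (Eventually.of_forall fun z => ?_)
      simp only
      by_cases hz : z ∈ KK Ω j
      · rw [indicator_of_mem hz, indicator_of_mem hz, ww, map_mul, Complex.conj_ofReal,
          mul_right_comm, Complex.conj_mul']
        push_cast
        ring
      · rw [indicator_of_notMem hz, indicator_of_notMem hz, Complex.ofReal_zero]
    rw [h3]
    exact h0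
  -- the action on the domain, extended by density
  have hact : ∀ g : bergman Ω, inner ℂ w (H g) = inner ℂ wf (g : Lp ℂ 2 (volume.restrict Ω)) := by
    have hclosed : IsClosed {g : bergman Ω | inner ℂ w (H g) =
        inner ℂ wf (g : Lp ℂ 2 (volume.restrict Ω))} :=
      isClosed_eq (continuous_const.inner H.continuous) (continuous_const.inner continuous_subtype_val)
    have hsub : {g : bergman Ω | MemLp (fun z => (starRingEnd ℂ) (f z) *
        (g : Lp ℂ 2 (volume.restrict Ω)) z) 2 (volume.restrict Ω)} ⊆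
        {g : bergman Ω | inner ℂ w (H g) = inner ℂ wf (g : Lp ℂ 2 (volume.restrict Ω))} := by
      intro g hg
      have h1 := horth _ (hH.sub_mem g hg)
      rw [inner_sub_right, sub_eq_zero] at h1
      change inner ℂ w (H g) = inner ℂ wf (g : Lp ℂ 2 (volume.restrict Ω))
      rw [← h1, L2.inner_def, L2.inner_def]
      refine integral_congr_ae ?_
      filter_upwards [hwae, hwfae, (MemLp.coeFn_toLp hg)] with z h3 h4 h5
      rw [hwd, hwfd, h3, h4, h5, RCLike.inner_apply, RCLike.inner_apply]
      by_cases hz : z ∈ KK Ω j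
      · rw [indicator_of_mem hz, indicator_of_mem hz, map_mul]
        ring
      · rw [indicator_of_notMem hz, indicator_of_notMem hz, map_zero, mul_zero, mul_zero]
    intro g
    have := hclosed.closure_subset_iff.2 hsub (hH.dense g)
    exact this
  -- the value of the pairing
  have hval : inner ℂ wf (u : Lp ℂ 2 (volume.restrict Ω)) = (starRingEnd ℂ) c * (v : ℂ) := by
    have h1 := pairing h.isOpen h.rein h.bdd hf (β := β) hc (h.isCompact_KK j) (KK_subset j)
      (KK_star j) (h.KK_rot j) (q := fun z => ww γ β m z * (starRingEnd ℂ) (mon α z))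
      ((measurable_ww γ β m).mul (Complex.continuous_conj.measurable.comp (measurable_mon α)))
      (C := C * (h.mon_bdd α j).choose)
      (fun z hz => by
        rw [norm_mul, RCLike.norm_conj]
        have h2 := hC z hz
        have h3 := (h.mon_bdd α j).choose_spec.2 z hz
        gcongr)
      (fun t z => by
        simp only [h.ww_rot, map_mul, mon_rot, h.mFourier_conj]
        have : UnitAddTorus.mFourier (-β) t =
            UnitAddTorus.mFourier γ t * UnitAddTorus.mFourier (-α) t := by
          rw [← UnitAddTorus.mFourier_add]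
          congr 2
          rw [hγd]
          abel
        rw [this]
        ring)
    rw [L2.inner_def]
    have h2 : ∫ z in Ω, inner ℂ (wf z) ((u : Lp ℂ 2 (volume.restrict Ω)) z) =
        (starRingEnd ℂ) (∫ z in Ω, (KK Ω j).indicator
          (fun z => ww γ β m z * (starRingEnd ℂ) (mon α z) * f z) z) := by
      rw [← integral_conj]
      refine integral_congr_ae ?_
      filter_upwards [hwfae, hu] with z h3 h4
      rw [hwfd, h3, h4, RCLike.inner_apply]
      by_cases hz : z ∈ KK Ω j
      · rw [indicator_of_mem hz, indicator_of_mem hz]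
        simp only [map_mul, Complex.conj_conj]
        ring
      · rw [indicator_of_notMem hz, indicator_of_notMem hz, map_zero, mul_zero]
    rw [h2, h1]
    have h3 : ∫ z in Ω, (KK Ω j).indicator
        (fun z => ww γ β m z * (starRingEnd ℂ) (mon α z) * mon β z) z = (v : ℂ) := by
      rw [hv, ← h.moment_one α β m j, ← integral_complex_ofReal]
      refine integral_congr_ae (Eventually.of_forall fun z => ?_)
      simp only
      by_cases hz : z ∈ KK Ω j
      · have h4 : mon α z = mon γ z * mon β z := by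
          rw [← mon_add (KK_star j hz), hγβ]
        rw [indicator_of_mem hz, indicator_of_mem hz, ww]
        have h5 : mon γ z * ((‖mon β z‖ ^ 2 - m : ℝ) : ℂ) * (starRingEnd ℂ) (mon α z) * mon β z =
            ((starRingEnd ℂ) (mon α z) * mon α z) * ((‖mon β z‖ ^ 2 - m : ℝ) : ℂ) := by
          rw [h4]
          ring
        rw [h5, Complex.conj_mul']
        push_cast
        ring
      · rw [indicator_of_notMem hz, indicator_of_notMem hz, Complex.ofReal_zero]
    rw [h3, map_mul, Complex.conj_ofReal]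
  -- the norm of the test vector
  have hnorm : ‖w‖ ^ 2 = v := by
    have h1 : inner ℂ w w = ((‖w‖ ^ 2 : ℝ) : ℂ) := by
      rw [inner_self_eq_norm_sq_to_K]
      push_cast
      rfl
    have h2 : inner ℂ w w = ((v : ℝ) : ℂ) := by
      rw [L2.inner_def]
      have h3 : v = aa Ω j (γ + β + β) - 2 * m * aa Ω j (γ + β) + m ^ 2 * aa Ω j γ := by
        rw [hγβ, hm, hv]
        ring
      rw [h3, ← h.moment_two γ β m j, ← integral_complex_ofReal]
      refine integral_congr_ae ?_
      filter_upwards [hwae] with z h4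
      rw [hwd, h4, RCLike.inner_apply]
      by_cases hz : z ∈ KK Ω j
      · rw [indicator_of_mem hz, indicator_of_mem hz, ww, map_mul, Complex.conj_ofReal]
        have h5 : mon γ z * ((‖mon β z‖ ^ 2 - m : ℝ) : ℂ) *
            ((starRingEnd ℂ) (mon γ z) * ((‖mon β z‖ ^ 2 - m : ℝ) : ℂ)) =
            ((starRingEnd ℂ) (mon γ z) * mon γ z) * ((‖mon β z‖ ^ 2 - m : ℝ) : ℂ) ^ 2 := by ring
        rw [h5, Complex.conj_mul']
        push_cast
        ring
      · rw [indicator_of_notMem hz, indicator_of_notMem hz, Complex.ofReal_zero, map_zero, mul_zero]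
    have h3 := h1.symm.trans h2
    exact_mod_cast h3
  have hv0 : 0 ≤ v := by rw [← hnorm]; positivity
  have hcs : ‖c‖ * v ≤ ‖w‖ * ‖H u‖ := by
    have h1 := norm_inner_le_norm (𝕜 := ℂ) w (H u)
    rw [hact u, hval, norm_mul, RCLike.norm_conj, Complex.norm_real, Real.norm_eq_abs,
      abs_of_nonneg hv0] at h1
    exact h1
  rcases hv0.eq_or_lt with h0 | h0
  · rw [← h0, mul_zero]
    positivity
  · have h1 : (‖c‖ * v) ^ 2 ≤ (‖w‖ * ‖H u‖) ^ 2 := by
      have : 0 ≤ ‖c‖ * v := by positivity
      gcongr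
    rw [mul_pow, mul_pow, hnorm] at h1
    have h2 : v * (‖c‖ ^ 2 * v) ≤ v * ‖H u‖ ^ 2 := by nlinarith
    exact le_of_mul_le_mul_left h2 h0

end Dom

end Pool.Agent.Zk71.Rh
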