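import Pool.Agent.Zk71.Rh.E

set_option autoImplicit false

open MeasureTheory Filter Topology Set Complex

namespace Pool.Agent.Zk71.Rh

variable {n : ℕ}

/-- squared norms of the monomials -/
noncomputable def cR (Ω : Set (Fin n → ℂ)) (γ : Fin n → ℤ) : ℝ := ∫ z in Ω, ‖mon γ z‖ ^ 2

/-- the monomial belongs to the Bergman space -/
def SS (Ω : Set (Fin n → ℂ)) (γ : Fin n → ℤ) : Prop :=
  ∃ u : bergman Ω, (u : Lp ℂ 2 (volume.restrict Ω)) =ᵐ[volume.restrict Ω] mon γ

lemma SS.memLp {Ω : Set (Fin n → ℂ)} {γ : Fin n → ℤ} (h : SS Ω γ) :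
    MemLp (mon γ) 2 (volume.restrict Ω) := by
  obtain ⟨u, hu⟩ := h
  exact (memLp_congr_ae hu).1 (Lp.memLp _)

lemma integrable_of_memLp {Ω : Set (Fin n → ℂ)} {γ : Fin n → ℤ}
    (h : MemLp (mon γ) 2 (volume.restrict Ω)) :
    Integrable (fun z => ‖mon γ z‖ ^ 2) (volume.restrict Ω) :=
  (memLp_two_iff_integrable_sq_norm (measurable_mon γ).aestronglyMeasurable).1 h

lemma norm_sq_eq {Ω : Set (Fin n → ℂ)} {γ : Fin n → ℤ} {u : Lp ℂ 2 (volume.restrict Ω)}
    (hu : u =ᵐ[volume.restrict Ω] mon γ) : ‖u‖ ^ 2 = cR Ω γ := by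
  have h1 : inner ℂ u u = ((‖u‖ ^ 2 : ℝ) : ℂ) := by
    rw [inner_self_eq_norm_sq_to_K]
    push_cast
    rfl
  have h2 : inner ℂ u u = ((cR Ω γ : ℝ) : ℂ) := by
    rw [L2.inner_def, cR, ← integral_complex_ofReal]
    refine integral_congr_ae ?_
    filter_upwards [hu] with z h4
    rw [h4, RCLike.inner_apply, mul_comm, Complex.conj_mul']
    push_cast
    rfl
  exact_mod_cast h1.symm.trans h2

namespace Dom

variable {Ω : Set (Fin n → ℂ)} (h : Dom Ω)

include h

lemma cR_pos {γ : Fin n → ℤ} (hγ : SS Ω γ) : 0 < cR Ω γ := by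
  have hi := integrable_of_memLp hγ.memLp
  have h0 : 0 ≤ cR Ω γ := integral_nonneg fun z => by positivity
  refine lt_of_le_of_ne h0 fun he => ?_
  have h1 := (integral_eq_zero_iff_of_nonneg (fun z => by positivity) hi).1 he.symm
  have h2 : ∀ᵐ z ∂(volume.restrict Ω), False := by
    filter_upwards [h1, ae_restrict_of_ae (s := Ω) (ae_star (n := n))] with z h3 h4
    have h5 := norm_pos_iff.2 (mon_ne_zero (γ := γ) h4)
    have h6 : ‖mon γ z‖ ^ 2 = 0 := h3
    exact (pow_pos h5 2).ne' h6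
  rw [ae_iff] at h2
  have h3 : volume Ω = 0 := by simpa using h2
  exact (h.isOpen.measure_pos volume h.conn.nonempty).ne' h3

lemma aa_eq (γ : Fin n → ℤ) (j : ℕ) : aa Ω j γ = ∫ z in KK Ω j, ‖mon γ z‖ ^ 2 ∂(volume.restrict Ω) := by
  unfold aa
  exact integral_indicator (h.isClosed_KK j).measurableSet

lemma aa_tendsto {γ : Fin n → ℤ} (hγ : MemLp (mon γ) 2 (volume.restrict Ω)) :
    Tendsto (fun j => aa Ω j γ) atTop (𝓝 (cR Ω γ)) := by
  simp_rw [h.aa_eq]
  exact h.aecover.integral_tendsto_of_countably_generated (integrable_of_memLp hγ)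

lemma aa_le {γ : Fin n → ℤ} (hγ : MemLp (mon γ) 2 (volume.restrict Ω)) (j : ℕ) :
    aa Ω j γ ≤ cR Ω γ := by
  rw [h.aa_eq]
  exact setIntegral_le_integral (integrable_of_memLp hγ) (Eventually.of_forall fun z => by positivity)

lemma memLp_of_bounded {γ : Fin n → ℤ} {B : ℝ} (hB : ∀ᶠ j in atTop, aa Ω j γ ≤ B) :
    MemLp (mon γ) 2 (volume.restrict Ω) := by
  rw [memLp_two_iff_integrable_sq_norm (measurable_mon γ).aestronglyMeasurable]
  refine h.aecover.integrable_of_integral_bounded_of_nonneg_ae B (fun j => ?_)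
    (Eventually.of_forall fun z => by positivity) ?_
  · rw [← integrable_indicator_iff (h.isClosed_KK j).measurableSet]
    exact h.integrable_mon_ind γ j
  · filter_upwards [hB] with j hj
    rw [← h.aa_eq]
    exact hj

/-- if some Laurent coefficient is nonzero, then the monomial is in the Bergman space -/
lemma SS_of_coef {γ : Fin n → ℤ} {g : (Fin n → ℂ) → ℂ} (hg : DifferentiableOn ℂ g Ω)
    (hL : MemLp g 2 (volume.restrict Ω)) {d : ℂ} (hd0 : d ≠ 0)
    (hd : ∀ z ∈ Ω, z ∈ star n → avg g γ z = d * mon γ z) : SS Ω γ := by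
  have hbound : ∀ j, aa Ω j γ ≤ ‖hL.toLp‖ ^ 2 / ‖d‖ ^ 2 := by
    intro j
    obtain ⟨C, hC0, hC⟩ := h.mon_bdd γ j
    have hKm : MeasurableSet (KK Ω j) := (h.isClosed_KK j).measurableSet
    have hw : MemLp ((KK Ω j).indicator (mon γ)) 2 (volume.restrict Ω) :=
      h.memLp_ind ((measurable_mon γ).indicator hKm) hC
    have h1 := pairing h.isOpen h.rein h.bdd hg (β := γ) hd (h.isCompact_KK j) (KK_subset j)
      (KK_star j) (h.KK_rot j) (q := fun z => (starRingEnd ℂ) (mon γ z))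
      (Complex.continuous_conj.measurable.comp (measurable_mon γ)) (C := C)
      (fun z hz => by rw [RCLike.norm_conj]; exact hC z hz)
      (fun t z => by simp only [mon_rot, map_mul, h.mFourier_conj])
    have h3 : ∫ z in Ω, (KK Ω j).indicator (fun z => (starRingEnd ℂ) (mon γ z) * mon γ z) z =
        ((aa Ω j γ : ℝ) : ℂ) := by
      unfold aa
      rw [← integral_complex_ofReal]
      refine integral_congr_ae (Eventually.of_forall fun z => ?_)
      simp only
      by_cases hz : z ∈ KK Ω j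
      · rw [indicator_of_mem hz, indicator_of_mem hz, Complex.conj_mul']
        push_cast
        rfl
      · rw [indicator_of_notMem hz, indicator_of_notMem hz, Complex.ofReal_zero]
    rw [h3] at h1
    have h2 : inner ℂ hw.toLp hL.toLp = d * ((aa Ω j γ : ℝ) : ℂ) := by
      rw [← h1, L2.inner_def]
      refine integral_congr_ae ?_
      filter_upwards [hw.coeFn_toLp, hL.coeFn_toLp] with z h4 h5
      rw [h4, h5, RCLike.inner_apply]
      by_cases hz : z ∈ KK Ω j
      · rw [indicator_of_mem hz, indicator_of_mem hz, mul_comm]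
      · rw [indicator_of_notMem hz, indicator_of_notMem hz, map_zero, mul_zero]
    have hn : ‖hw.toLp‖ ^ 2 = aa Ω j γ := by
      have e1 : inner ℂ hw.toLp hw.toLp = ((‖hw.toLp‖ ^ 2 : ℝ) : ℂ) := by
        rw [inner_self_eq_norm_sq_to_K]
        push_cast
        rfl
      have e2 : inner ℂ hw.toLp hw.toLp = ((aa Ω j γ : ℝ) : ℂ) := by
        rw [L2.inner_def, ← h3]
        refine integral_congr_ae ?_
        filter_upwards [hw.coeFn_toLp] with z h4
        rw [h4, RCLike.inner_apply]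
        by_cases hz : z ∈ KK Ω j
        · rw [indicator_of_mem hz, indicator_of_mem hz, mul_comm]
        · rw [indicator_of_notMem hz, indicator_of_notMem hz, map_zero, mul_zero]
      exact_mod_cast e1.symm.trans e2
    have hcs := norm_inner_le_norm (𝕜 := ℂ) hw.toLp hL.toLp
    have ha := aa_nonneg (Ω := Ω) γ j
    rw [h2, norm_mul, Complex.norm_real, Real.norm_eq_abs, abs_of_nonneg ha] at hcs
    have hdn : 0 < ‖d‖ := norm_pos_iff.2 hd0
    rw [le_div_iff₀ (by positivity)]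
    have h5 : (‖d‖ * aa Ω j γ) ^ 2 ≤ (‖hw.toLp‖ * ‖hL.toLp‖) ^ 2 := by
      have : 0 ≤ ‖d‖ * aa Ω j γ := by positivity
      gcongr
    rw [mul_pow, mul_pow, hn] at h5
    rcases ha.eq_or_lt with h0 | h0
    · rw [← h0, zero_mul]
      positivity
    · have h6 : aa Ω j γ * (aa Ω j γ * ‖d‖ ^ 2) ≤ aa Ω j γ * ‖hL.toLp‖ ^ 2 := by nlinarith
      exact le_of_mul_le_mul_left h6 h0
  have hm := h.memLp_of_bounded (Eventually.of_forall hbound)
  have hae : mon γ =ᵐ[volume.restrict Ω] fun z => avg g γ z * d⁻¹ := by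
    filter_upwards [ae_restrict_mem h.isOpen.measurableSet,
      ae_restrict_of_ae (s := Ω) (ae_star (n := n))] with z hz hs
    rw [hd z hz hs]
    field_simp
  refine ⟨⟨hm.toLp, ⟨fun z => avg g γ z * d⁻¹, ?_, hm.coeFn_toLp.trans hae⟩⟩, hm.coeFn_toLp⟩
  exact (differentiableOn_avg h.isOpen h.rein hg γ).mul (differentiableOn_const _)

variable {f : (Fin n → ℂ) → ℂ} (hf : DifferentiableOn ℂ f Ω)
    {H : bergman Ω →L[ℂ] Lp ℂ 2 (volume.restrict Ω)} (hH : IsHankelExtension Ω f H)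
    {α β : Fin n → ℤ} {c : ℂ} (hc : ∀ z ∈ Ω, z ∈ star n → avg f β z = c * mon β z)
    (u : bergman Ω) (hu : (u : Lp ℂ 2 (volume.restrict Ω)) =ᵐ[volume.restrict Ω] mon α)

include hf hH hc hu

lemma key_notMem (hγ : ¬ SS Ω (α - β)) (j : ℕ) : ‖c‖ ^ 2 * aa Ω j (α + β) ≤ ‖H u‖ ^ 2 := by
  have h1 := h.key hf hH hc u hu j 0 (fun g hg hL d hd => by
    have : d = 0 := by
      by_contra hd0
      exact hγ (h.SS_of_coef hg hL hd0 hd)
    rw [this, zero_mul]) (by ring)
  simpa using h1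

lemma key_mem (j : ℕ) (hj : 0 < aa Ω j (α - β)) :
    ‖c‖ ^ 2 * (aa Ω j (α + β) - aa Ω j α ^ 2 / aa Ω j (α - β)) ≤ ‖H u‖ ^ 2 := by
  have h1 := h.key hf hH hc u hu j (aa Ω j α / aa Ω j (α - β)) (fun g hg hL d hd => by
    rw [div_mul_cancel₀ _ hj.ne', sub_self, Complex.ofReal_zero, mul_zero]) (by field_simp)
  convert h1 using 3
  field_simp

/-- the index set is invariant under adding `β` -/
lemma SS_add (hc0 : c ≠ 0) : SS Ω (α + β) := by
  have hα : SS Ω α := ⟨u, hu⟩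
  have hcn : 0 < ‖c‖ ^ 2 := by
    have := norm_pos_iff.2 hc0
    positivity
  have hm : MemLp (mon (α + β)) 2 (volume.restrict Ω) := by
    by_cases hγ : SS Ω (α - β)
    · refine h.memLp_of_bounded (B := ‖H u‖ ^ 2 / ‖c‖ ^ 2 + cR Ω α ^ 2 / (cR Ω (α - β) / 2)) ?_
      have hpos := h.cR_pos hγ
      have hev := (h.aa_tendsto hγ.memLp).eventually_const_lt (half_lt_self hpos)
      filter_upwards [hev] with j hj
      have hj0 : 0 < aa Ω j (α - β) := (half_pos hpos).trans hj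
      have h1 := h.key_mem hf hH hc u hu j hj0
      have h2 : aa Ω j (α + β) - aa Ω j α ^ 2 / aa Ω j (α - β) ≤ ‖H u‖ ^ 2 / ‖c‖ ^ 2 := by
        rw [le_div_iff₀ hcn, mul_comm]
        exact h1
      have h3 : aa Ω j α ^ 2 / aa Ω j (α - β) ≤ cR Ω α ^ 2 / (cR Ω (α - β) / 2) := by
        have h4 := h.aa_le hα.memLp j
        have h5 := aa_nonneg (Ω := Ω) α j
        have h6 : 0 < cR Ω (α - β) / 2 := half_pos hpos
        gcongr
      linarith
    · refine h.memLp_of_bounded (B := ‖H u‖ ^ 2 / ‖c‖ ^ 2) (Eventually.of_forall fun j => ?_)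
      rw [le_div_iff₀ hcn, mul_comm]
      exact h.key_notMem hf hH hc u hu hγ j
  obtain ⟨g, hg, hug⟩ := u.2
  have hae : mon (α + β) =ᵐ[volume.restrict Ω] fun z => g z * (avg f β z * c⁻¹) := by
    filter_upwards [ae_restrict_mem h.isOpen.measurableSet,
      ae_restrict_of_ae (s := Ω) (ae_star (n := n)), hu, hug] with z hz hs h1 h2
    rw [hc z hz hs, ← h2, h1, mon_add hs]
    field_simp
  refine ⟨⟨hm.toLp, ⟨fun z => g z * (avg f β z * c⁻¹), ?_, hm.coeFn_toLp.trans hae⟩⟩,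
    hm.coeFn_toLp⟩
  exact hg.mul ((differentiableOn_avg h.isOpen h.rein hf β).mul (differentiableOn_const _))

lemma bound_notMem (hc0 : c ≠ 0) (hγ : ¬ SS Ω (α - β)) : ‖c‖ ^ 2 * cR Ω (α + β) ≤ ‖H u‖ ^ 2 := by
  have h1 := (h.aa_tendsto (h.SS_add hf hH hc u hu hc0).memLp).const_mul (‖c‖ ^ 2)
  exact le_of_tendsto' h1 fun j => h.key_notMem hf hH hc u hu hγ j

lemma bound_mem (hc0 : c ≠ 0) (hγ : SS Ω (α - β)) :
    ‖c‖ ^ 2 * (cR Ω (α + β) - cR Ω α ^ 2 / cR Ω (α - β)) ≤ ‖H u‖ ^ 2 := by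
  have hα : SS Ω α := ⟨u, hu⟩
  have hpos := h.cR_pos hγ
  have h1 := h.aa_tendsto (h.SS_add hf hH hc u hu hc0).memLp
  have h2 := h.aa_tendsto hα.memLp
  have h3 := h.aa_tendsto hγ.memLp
  have h4 := (h1.sub ((h2.pow 2).div h3 hpos.ne')).const_mul (‖c‖ ^ 2)
  refine le_of_tendsto h4 ?_
  filter_upwards [h3.eventually_const_lt hpos] with j hj
  exact h.key_mem hf hH hc u hu j hj

end Dom

end Pool.Agent.Zk71.Rh
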