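import Pool.Agent.Zk71.Rh.F

set_option autoImplicit false

open MeasureTheory Filter Topology Set Complex

namespace Pool.Agent.Zk71.Rh

variable {n : ℕ}

/-- growth: an abstract comparison of geometric sequences -/
lemma growth {c : ℕ → ℝ} {b b' C : ℝ} (hb' : 0 < b') (hb : b' < b) (hC : 0 < C)
    (hpos : ∀ m, 0 < c m) (hlow : ∀ m, b ^ m * C ≤ c m) : ∃ N, b' ≤ c (N + 1) / c N := by
  by_contra hcon
  push Not at hcon
  have h1 : ∀ m, c m ≤ b' ^ m * c 0 := by
    intro m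
    induction m with
    | zero => simp
    | succ m ih =>
      have h2 := hcon m
      rw [div_lt_iff₀ (hpos m)] at h2
      calc c (m + 1) ≤ b' * c m := h2.le
        _ ≤ b' * (b' ^ m * c 0) := by gcongr
        _ = b' ^ (m + 1) * c 0 := by ring
  have h3 : Tendsto (fun m : ℕ => (b / b') ^ m) atTop atTop :=
    tendsto_pow_atTop_atTop_of_one_lt ((one_lt_div hb').2 hb)
  obtain ⟨m, hm⟩ := (h3.eventually_gt_atTop (c 0 / C)).exists
  have h4 := (hlow m).trans (h1 m)
  have h5 : (b / b') ^ m ≤ c 0 / C := by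
    rw [div_pow, div_le_div_iff₀ (by positivity) hC]
    linarith
  linarith

/-- the line lemma -/
lemma line {s : ℤ → Prop} (h0 : s 0) (hup : ∀ k, s k → s (k + 1)) {c : ℤ → ℝ}
    {a' b' : ℝ} (ha' : 0 < a')
    (hP1 : ∀ N₀ : ℤ, s N₀ → ∃ N, N₀ ≤ N ∧ b' ≤ c (N + 1) / c N)
    (hP2 : (∀ k, s k) → ∃ M, M ≤ 0 ∧ c (M + 1) / c M ≤ a') :
    ∃ (k₀ : ℤ) (m : ℕ), (∀ i : ℕ, s (k₀ + i)) ∧ ∀ V : ℤ → ℝ,
      (∀ k, s k → s (k - 1) → c (k + 1) / c k - c k / c (k - 1) ≤ V k) →
      (∀ k, s k → ¬ s (k - 1) → c (k + 1) / c k ≤ V k) →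
      b' - a' ≤ ∑ i ∈ Finset.range m, V (k₀ + i) := by
  have hup' : ∀ k, s k → ∀ i : ℕ, s (k + i) := by
    intro k hk i
    induction i with
    | zero => simpa using hk
    | succ i ih =>
      have := hup _ ih
      push_cast
      rwa [← add_assoc]
  by_cases hall : ∀ k, s k
  · obtain ⟨M, hM0, hM⟩ := hP2 hall
    obtain ⟨N, hN0, hN⟩ := hP1 1 (hall 1)
    refine ⟨M + 1, (N - M).toNat, fun i => hall _, fun V hV1 _ => ?_⟩
    have h1 : ∀ m : ℕ, c (M + 1 + m) / c (M + m) - c (M + 1) / c M ≤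
        ∑ i ∈ Finset.range m, V (M + 1 + i) := by
      intro m
      induction m with
      | zero => simp
      | succ m ih =>
        rw [Finset.sum_range_succ]
        have h2 := hV1 (M + 1 + m) (hall _) (hall _)
        have e1 : M + 1 + (m : ℤ) - 1 = M + m := by ring
        have e2 : M + 1 + (m : ℤ) + 1 = M + 1 + ((m + 1 : ℕ) : ℤ) := by push_cast; ring
        have e3 : M + 1 + (m : ℤ) = M + ((m + 1 : ℕ) : ℤ) := by push_cast; ring
        rw [e1, e2] at h2
        rw [← e3]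
        linarith
    have h2 := h1 (N - M).toNat
    have e4 : (((N - M).toNat : ℕ) : ℤ) = N - M := Int.toNat_of_nonneg (by omega)
    have e5 : M + 1 + (N - M) = N + 1 := by ring
    have e6 : M + (N - M) = N := by ring
    rw [e4, e5, e6] at h2
    linarith
  · push Not at hall
    obtain ⟨k₁, hk₁⟩ := hall
    have hlb : ∀ z, s z → k₁ ≤ z := by
      intro z hz
      by_contra hlt
      push Not at hlt
      have := hup' z hz (k₁ - z).toNat
      rw [Int.toNat_of_nonneg (by omega)] at this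
      exact hk₁ (by simpa using this)
    obtain ⟨k₀, hk₀, hmin⟩ := Int.exists_least_of_bdd ⟨k₁, hlb⟩ ⟨0, h0⟩
    have hn : ¬ s (k₀ - 1) := fun h => by
      have := hmin _ h
      omega
    obtain ⟨N, hN0, hN⟩ := hP1 k₀ hk₀
    refine ⟨k₀, (N - k₀).toNat + 1, hup' k₀ hk₀, fun V hV1 hV2 => ?_⟩
    have h1 : ∀ m : ℕ, c (k₀ + m + 1) / c (k₀ + m) ≤
        ∑ i ∈ Finset.range (m + 1), V (k₀ + i) := by
      intro m
      induction m with
      | zero =>
        simp only [Nat.cast_zero, add_zero, zero_add, Finset.range_one, Finset.sum_singleton]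
        exact hV2 k₀ hk₀ hn
      | succ m ih =>
        rw [Finset.sum_range_succ]
        have e1 : k₀ + ((m + 1 : ℕ) : ℤ) - 1 = k₀ + m := by push_cast; ring
        have h2 := hV1 (k₀ + ((m + 1 : ℕ) : ℤ)) (hup' k₀ hk₀ _)
          (by rw [e1]; exact hup' k₀ hk₀ _)
        have e3 : k₀ + (m : ℤ) + 1 = k₀ + ((m + 1 : ℕ) : ℤ) := by push_cast; ring
        rw [e1] at h2
        rw [e3] at ih
        linarith
    have h2 := h1 (N - k₀).toNat
    have e4 : (((N - k₀).toNat : ℕ) : ℤ) = N - k₀ := Int.toNat_of_nonneg (by omega)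
    have e5 : k₀ + (N - k₀) = N := by ring
    rw [e4, e5] at h2
    linarith

namespace Dom

variable {Ω : Set (Fin n → ℂ)} (h : Dom Ω)

include h

/-- growth of the norms along a line -/
lemma growth_line {α β : Fin n → ℤ} {b b' : ℝ} (hb' : 0 < b') (hb : b' < b)
    (hS : ∀ m : ℕ, SS Ω (α + (m : ℤ) • β))
    {z₁ : Fin n → ℂ} (hz₁ : z₁ ∈ Ω) (hs₁ : z₁ ∈ star n) (hz₁b : b < ‖mon β z₁‖ ^ 2) :
    ∃ N : ℕ, b' ≤ cR Ω (α + ((N + 1 : ℕ) : ℤ) • β) / cR Ω (α + (N : ℤ) • β) := by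
  set U : Set (Fin n → ℂ) := {z | z ∈ Ω ∩ star n ∧ b < ‖mon β z‖ ^ 2} with hU
  have hUo : IsOpen U := by
    have h1 : ContinuousOn (fun z => ‖mon β z‖ ^ 2) (Ω ∩ star n) :=
      (((differentiableOn_mon β).continuousOn.mono inter_subset_right).norm).pow 2
    exact h1.isOpen_inter_preimage (h.isOpen.inter isOpen_star) isOpen_Ioi
  have hUΩ : U ⊆ Ω := fun z hz => hz.1.1
  have hi : ∀ m : ℕ, Integrable (fun z => ‖mon (α + (m : ℤ) • β) z‖ ^ 2) (volume.restrict Ω) :=
    fun m => integrable_of_memLp (hS m).memLp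
  have hmonm : ∀ (m : ℕ), ∀ z ∈ star n,
      ‖mon (α + (m : ℤ) • β) z‖ ^ 2 = ‖mon α z‖ ^ 2 * (‖mon β z‖ ^ 2) ^ m := by
    intro m z hz
    induction m with
    | zero => simp
    | succ m ih =>
      have e1 : α + ((m + 1 : ℕ) : ℤ) • β = (α + (m : ℤ) • β) + β := by
        push_cast
        rw [add_smul, one_smul, add_assoc]
      rw [e1, mon_add hz, norm_mul, mul_pow, ih, pow_succ (‖mon β z‖ ^ 2) m, mul_assoc]
  set C : ℝ := ∫ z in U, ‖mon α z‖ ^ 2 with hC
  have hi0 : Integrable (fun z => ‖mon α z‖ ^ 2) (volume.restrict Ω) := by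
    have := hi 0
    simpa using this
  have hiU : IntegrableOn (fun z => ‖mon α z‖ ^ 2) U volume := hi0.mono_measure
    (Measure.restrict_mono hUΩ le_rfl)
  have hCpos : 0 < C := by
    rw [hC, integral_pos_iff_support_of_nonneg (fun z => by positivity) hiU]
    have h2 : U ⊆ Function.support fun z => ‖mon α z‖ ^ 2 := by
      intro z hz
      have := norm_pos_iff.2 (mon_ne_zero (γ := α) hz.1.2)
      exact (pow_pos this 2).ne'
    have h3 : 0 < (volume.restrict U) U := by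
      rw [Measure.restrict_apply_self]
      exact hUo.measure_pos volume ⟨z₁, ⟨hz₁, hs₁⟩, hz₁b⟩
    exact h3.trans_le (measure_mono h2)
  refine growth (c := fun m : ℕ => cR Ω (α + (m : ℤ) • β)) (C := C) hb' hb hCpos
    (fun m => h.cR_pos (hS m)) fun m => ?_
  have h4 : ∫ z in U, ‖mon (α + (m : ℤ) • β) z‖ ^ 2 ≤ cR Ω (α + (m : ℤ) • β) := by
    unfold cR
    exact setIntegral_mono_set (hi m) (Eventually.of_forall fun z => by positivity)
      (HasSubset.Subset.eventuallyLE hUΩ)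
  refine le_trans ?_ h4
  rw [hC, ← integral_const_mul]
  refine setIntegral_mono_on (hiU.const_mul _) ((hi m).mono_measure
    (Measure.restrict_mono hUΩ le_rfl)) hUo.measurableSet fun z hz => ?_
  rw [hmonm m z hz.1.2, mul_comm]
  have h5 : b ^ m ≤ (‖mon β z‖ ^ 2) ^ m := by
    have : b < ‖mon β z‖ ^ 2 := hz.2
    have hb0 : 0 ≤ b := (hb'.trans hb).le
    gcongr
  have h6 : (0:ℝ) ≤ ‖mon α z‖ ^ 2 := by positivity
  exact mul_le_mul_of_nonneg_left h5 h6

/-- a nonconstant monomial has two distinct norms -/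
lemma exists_two {β : Fin n → ℤ} (hβ : β ≠ 0) : ∃ z₁ ∈ Ω, ∃ z₂ ∈ Ω, z₁ ∈ star n ∧ z₂ ∈ star n ∧
    ‖mon β z₁‖ ^ 2 < ‖mon β z₂‖ ^ 2 := by
  obtain ⟨z₀, hz₀, hs₀⟩ := exists_star h.isOpen h.conn.nonempty
  obtain ⟨i, hi⟩ : ∃ i, β i ≠ 0 := by
    by_contra hcon
    push Not at hcon
    exact hβ (funext hcon)
  -- scaling the coordinate `i`
  set g : ℝ → (Fin n → ℂ) := fun t => Function.update z₀ i ((t : ℂ) * z₀ i) with hg
  have hgc : Continuous g := by
    rw [hg]
    exact continuous_const.update i (by fun_prop)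
  have hg1 : g 1 = z₀ := by
    simp [hg]
  have hev : ∀ᶠ t in 𝓝 (1 : ℝ), g t ∈ Ω := by
    have h1 : Tendsto g (𝓝 1) (𝓝 z₀) := by
      have := hgc.tendsto 1
      rwa [hg1] at this
    exact h1.eventually (h.isOpen.mem_nhds hz₀)
  obtain ⟨ε, hε, hball⟩ := Metric.eventually_nhds_iff.1 hev
  set t : ℝ := 1 + min (ε / 2) 1 with ht
  have hmin : 0 < min (ε / 2) 1 := lt_min (by positivity) one_pos
  have ht1 : 1 < t := by linarith
  have htΩ : g t ∈ Ω := by
    refine hball ?_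
    rw [Real.dist_eq, ht, add_sub_cancel_left, abs_of_pos hmin]
    exact (min_le_left _ _).trans_lt (by linarith)
  have hts : g t ∈ star n := by
    intro j
    simp only [hg]
    by_cases hj : j = i
    · subst hj
      rw [Function.update_self]
      exact mul_ne_zero (by exact_mod_cast (by linarith : t ≠ 0)) (hs₀ j)
    · rw [Function.update_of_ne hj]
      exact hs₀ j
  have hmon : mon β (g t) = (t : ℂ) ^ β i * mon β z₀ := by
    unfold mon
    rw [← Finset.mul_prod_erase Finset.univ _ (Finset.mem_univ i),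
      ← Finset.mul_prod_erase Finset.univ (fun j => z₀ j ^ β j) (Finset.mem_univ i)]
    simp only [hg]
    rw [Function.update_self, mul_zpow, mul_assoc]
    congr 2
    refine Finset.prod_congr rfl fun j hj => ?_
    rw [Function.update_of_ne (Finset.ne_of_mem_erase hj)]
  have hnorm : ‖mon β (g t)‖ ^ 2 = (t ^ β i) ^ 2 * ‖mon β z₀‖ ^ 2 := by
    rw [hmon, norm_mul, norm_zpow, Complex.norm_real, Real.norm_eq_abs,
      abs_of_pos (by linarith), mul_pow]
  have hpos : 0 < ‖mon β z₀‖ ^ 2 := pow_pos (norm_pos_iff.2 (mon_ne_zero hs₀)) 2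
  rcases lt_or_gt_of_ne hi with hneg | hp
  · refine ⟨g t, htΩ, z₀, hz₀, hts, hs₀, ?_⟩
    rw [hnorm]
    have h1 : t ^ β i < 1 := zpow_lt_one_of_neg₀ ht1 hneg
    have h2 : 0 < t ^ β i := zpow_pos (by linarith) _
    have h3 : (t ^ β i) ^ 2 < 1 := by nlinarith
    nlinarith
  · refine ⟨z₀, hz₀, g t, htΩ, hs₀, hts, ?_⟩
    rw [hnorm]
    have h1 : 1 < t ^ β i := one_lt_zpow₀ ht1 hp
    have h3 : 1 < (t ^ β i) ^ 2 := by nlinarith
    nlinarith

end Dom

end Pool.Agent.Zk71.Rh
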