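import Mathlib

set_option autoImplicit false

open scoped ENNReal

namespace Pool.Agent.Zk71.Rh

/-- Parseval in `ENNReal`. -/
lemma parseval {ι E : Type*} [NormedAddCommGroup E] [InnerProductSpace ℂ E]
    (b : HilbertBasis ι ℂ E) (x : E) :
    ∑' i, ENNReal.ofReal (‖inner ℂ (b i) x‖ ^ 2) = ENNReal.ofReal (‖x‖ ^ 2) := by
  have h1 : HasSum (fun i => ‖inner ℂ (b i) x‖ ^ 2) (‖x‖ ^ 2) := by
    have h2 := lp.hasSum_norm (p := 2) (by norm_num) (b.repr x)
    have h3 : ‖b.repr x‖ = ‖x‖ := b.repr.norm_map x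
    simp only [b.repr_apply_apply, ENNReal.toReal_ofNat, h3] at h2
    exact_mod_cast h2
  rw [← ENNReal.ofReal_tsum_of_nonneg (fun i => by positivity) h1.summable, h1.tsum_eq]

/-- the Hilbert-Schmidt norm bounds the sum over a finite orthonormal family -/
lemma hs_bound {ι K E : Type*} [NormedAddCommGroup K] [InnerProductSpace ℂ K]
    [NormedAddCommGroup E] [InnerProductSpace ℂ E] [CompleteSpace E]
    (b : HilbertBasis ι ℂ K) (H : K →L[ℂ] E) (hs : Summable fun i => ‖H (b i)‖ ^ 2)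
    {κ : Type*} (F : Finset κ) (v : κ → K) (hv : Orthonormal ℂ (fun k : F => v k)) :
    ∑ k ∈ F, ‖H (v k)‖ ^ 2 ≤ ∑' i, ‖H (b i)‖ ^ 2 := by
  have : CompleteSpace K :=
    (b.repr.toIsometryEquiv.completeSpace_iff).2 inferInstance
  obtain ⟨w, e, -⟩ := exists_hilbertBasis ℂ E
  have h1 : ∑ k ∈ F, ENNReal.ofReal (‖H (v k)‖ ^ 2) ≤ ∑' i, ENNReal.ofReal (‖H (b i)‖ ^ 2) := by
    calc ∑ k ∈ F, ENNReal.ofReal (‖H (v k)‖ ^ 2)
        = ∑ k ∈ F, ∑' x, ENNReal.ofReal (‖inner ℂ (e x) (H (v k))‖ ^ 2) := by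
          simp_rw [parseval e]
      _ = ∑' x, ∑ k ∈ F, ENNReal.ofReal (‖inner ℂ (e x) (H (v k))‖ ^ 2) := by
          rw [← Summable.tsum_finsetSum fun _ _ => ENNReal.summable]
      _ ≤ ∑' x, ENNReal.ofReal (‖H.adjoint (e x)‖ ^ 2) := by
          refine ENNReal.tsum_le_tsum fun x => ?_
          rw [← ENNReal.ofReal_sum_of_nonneg fun _ _ => by positivity]
          refine ENNReal.ofReal_le_ofReal ?_
          have h2 := hv.sum_inner_products_le (H.adjoint (e x)) (s := Finset.univ)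
          refine le_trans (le_of_eq ?_) h2
          rw [← Finset.sum_coe_sort]
          refine Finset.sum_congr rfl fun k _ => ?_
          rw [← ContinuousLinearMap.adjoint_inner_left, ← norm_inner_symm]
      _ = ∑' x, ∑' i, ENNReal.ofReal (‖inner ℂ (b i) (H.adjoint (e x))‖ ^ 2) := by
          simp_rw [parseval b]
      _ = ∑' i, ∑' x, ENNReal.ofReal (‖inner ℂ (b i) (H.adjoint (e x))‖ ^ 2) :=
          ENNReal.tsum_comm
      _ = ∑' i, ∑' x, ENNReal.ofReal (‖inner ℂ (e x) (H (b i))‖ ^ 2) := by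
          refine tsum_congr fun i => tsum_congr fun x => ?_
          rw [ContinuousLinearMap.adjoint_inner_right, ← norm_inner_symm]
      _ = ∑' i, ENNReal.ofReal (‖H (b i)‖ ^ 2) := by simp_rw [parseval e]
  rw [← ENNReal.ofReal_tsum_of_nonneg (fun i => by positivity) hs,
    ← ENNReal.ofReal_sum_of_nonneg fun _ _ => by positivity] at h1
  exact (ENNReal.ofReal_le_ofReal_iff (tsum_nonneg fun i => by positivity)).1 h1

end Pool.Agent.Zk71.Rh
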