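import Pool.Agent.Zk71.Rh.G
import Pool.Agent.Zk71.Rh.HS

set_option autoImplicit false

open MeasureTheory Filter Topology Set Complex

namespace Pool.Agent.Zk71.Rh

variable {n : ℕ}

lemma exists_mFourier_neg {δ : Fin n → ℤ} (hδ : δ ≠ 0) :
    ∃ t : UnitAddTorus (Fin n), UnitAddTorus.mFourier δ t = -1 := by
  obtain ⟨i, hi⟩ : ∃ i, δ i ≠ 0 := by
    by_contra hcon
    push Not at hcon
    exact hδ (funext hcon)
  refine ⟨Function.update 0 i (((1 / (2 * (δ i : ℝ)) : ℝ)) : UnitAddCircle), ?_⟩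
  unfold UnitAddTorus.mFourier
  simp only [ContinuousMap.coe_mk]
  rw [← Finset.mul_prod_erase Finset.univ _ (Finset.mem_univ i), Function.update_self,
    Finset.prod_eq_one, mul_one, fourier_coe_apply]
  · have h1 : (δ i : ℂ) ≠ 0 := by exact_mod_cast hi
    have h2 : 2 * (Real.pi : ℂ) * I * (δ i : ℂ) * ((1 / (2 * (δ i : ℝ)) : ℝ) : ℂ) / ((1 : ℝ) : ℂ) =
        Real.pi * I := by
      push_cast
      field_simp
    rw [h2, Complex.exp_pi_mul_I]
  · intro j hj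
    rw [Function.update_of_ne (Finset.ne_of_mem_erase hj)]
    simp

/-- the monomial as an element of the Bergman space -/
noncomputable def SS.u {Ω : Set (Fin n → ℂ)} {γ : Fin n → ℤ} (hγ : SS Ω γ) : bergman Ω :=
  Exists.choose hγ

lemma SS.u_spec {Ω : Set (Fin n → ℂ)} {γ : Fin n → ℤ} (hγ : SS Ω γ) :
    (hγ.u : Lp ℂ 2 (volume.restrict Ω)) =ᵐ[volume.restrict Ω] mon γ :=
  Exists.choose_spec hγ

namespace Dom

variable {Ω : Set (Fin n → ℂ)} (h : Dom Ω)

include h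

lemma inner_mon {γ γ' : Fin n → ℤ} (hne : γ ≠ γ') {u u' : Lp ℂ 2 (volume.restrict Ω)}
    (hu : u =ᵐ[volume.restrict Ω] mon γ) (hu' : u' =ᵐ[volume.restrict Ω] mon γ') :
    inner ℂ u u' = 0 := by
  obtain ⟨t, ht⟩ := exists_mFourier_neg (sub_ne_zero.2 hne.symm)
  have h1 : inner ℂ u u' = ∫ z in Ω, mon γ' z * (starRingEnd ℂ) (mon γ z) := by
    rw [L2.inner_def]
    refine integral_congr_ae ?_
    filter_upwards [hu, hu'] with z h2 h3
    rw [h2, h3, RCLike.inner_apply]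
  have h2 : ∫ z in Ω, mon γ' z * (starRingEnd ℂ) (mon γ z) =
      ∫ z in Ω, mon γ' (rot t z) * (starRingEnd ℂ) (mon γ (rot t z)) := by
    have hmp := h.rein.measurePreserving h.isOpen.measurableSet t
    have hm : Measurable fun z => mon γ' z * (starRingEnd ℂ) (mon γ z) :=
      (measurable_mon γ').mul (Complex.continuous_conj.measurable.comp (measurable_mon γ))
    have h5 := integral_map (μ := volume.restrict Ω) hmp.measurable.aemeasurable
      (f := fun z => mon γ' z * (starRingEnd ℂ) (mon γ z)) (hmp.map_eq.symm ▸ hm.aestronglyMeasurable)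
    rw [hmp.map_eq] at h5
    exact h5
  have h3 : ∀ z, mon γ' (rot t z) * (starRingEnd ℂ) (mon γ (rot t z)) =
      - (mon γ' z * (starRingEnd ℂ) (mon γ z)) := by
    intro z
    rw [mon_rot, mon_rot, map_mul, h.mFourier_conj]
    have h4 : UnitAddTorus.mFourier γ' t * UnitAddTorus.mFourier (-γ) t = -1 := by
      rw [← UnitAddTorus.mFourier_add, ← sub_eq_add_neg, ht]
    linear_combination mon γ' z * (starRingEnd ℂ) (mon γ z) * h4
  simp_rw [h3, integral_neg] at h2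
  rw [h1]
  have h6 := add_eq_zero_iff_eq_neg.2 h2
  rw [← two_mul] at h6
  exact (mul_eq_zero.1 h6).resolve_left two_ne_zero

/-- normalised squared norms of `H` at the monomials -/
noncomputable def _root_.Pool.Agent.Zk71.Rh.hh {Ω : Set (Fin n → ℂ)}
    (H : bergman Ω →L[ℂ] Lp ℂ 2 (volume.restrict Ω)) (γ : Fin n → ℤ) : ℝ :=
  open Classical in if hγ : SS Ω γ then ‖H hγ.u‖ ^ 2 / cR Ω γ else 0

/-- the normalised monomials -/
noncomputable def _root_.Pool.Agent.Zk71.Rh.vv (Ω : Set (Fin n → ℂ)) (γ : Fin n → ℤ) : bergman Ω :=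
  open Classical in if hγ : SS Ω γ then ((Real.sqrt (cR Ω γ) : ℂ))⁻¹ • hγ.u else 0

lemma orthonormal_vv {F : Finset (Fin n → ℤ)} (hF : ∀ γ ∈ F, SS Ω γ) :
    Orthonormal ℂ (fun γ : F => vv Ω γ) := by
  classical
  rw [orthonormal_iff_ite]
  intro γ γ'
  have hγ := hF γ γ.2
  have hγ' := hF γ' γ'.2
  have h1 := hγ.u_spec
  have h2 := hγ'.u_spec
  unfold vv
  rw [dif_pos hγ, dif_pos hγ']
  have hsm : ∀ (a b : ℂ) (x y : bergman Ω), inner ℂ (a • x) (b • y) =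
      (starRingEnd ℂ) a * (b * inner ℂ x y) := by
    intro a b x y
    rw [Submodule.coe_inner, Submodule.coe_inner, Submodule.coe_smul, Submodule.coe_smul,
      inner_smul_left, inner_smul_right]
  rw [hsm]
  by_cases he : γ = γ'
  · subst he
    rw [if_pos rfl, Submodule.coe_inner]
    have h3 : ‖(hγ.u : Lp ℂ 2 (volume.restrict Ω))‖ ^ 2 = cR Ω γ := norm_sq_eq h1
    have h4 := h.cR_pos hγ
    have h5 : inner ℂ (hγ.u : Lp ℂ 2 (volume.restrict Ω)) (hγ.u : Lp ℂ 2 (volume.restrict Ω)) =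
        (cR Ω γ : ℂ) := by
      rw [inner_self_eq_norm_sq_to_K, ← h3]
      push_cast
      rfl
    have h6 : ((Real.sqrt (cR Ω γ) : ℝ) : ℂ) * ((Real.sqrt (cR Ω γ) : ℝ) : ℂ) = (cR Ω γ : ℂ) := by
      exact_mod_cast Real.mul_self_sqrt h4.le
    have h7 : ((Real.sqrt (cR Ω γ) : ℝ) : ℂ) ≠ 0 := by
      have := Real.sqrt_pos.2 h4
      exact_mod_cast this.ne'
    rw [map_inv₀, Complex.conj_ofReal, h5, ← h6]
    field_simp
  · rw [if_neg he]
    have h3 : inner ℂ hγ.u hγ'.u = 0 :=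
      h.inner_mon (fun h8 => he (Subtype.ext h8)) h1 h2
    rw [h3, mul_zero, mul_zero]

lemma norm_H_vv (H : bergman Ω →L[ℂ] Lp ℂ 2 (volume.restrict Ω)) {γ : Fin n → ℤ}
    (hγ : SS Ω γ) : ‖H (vv Ω γ)‖ ^ 2 = hh H γ := by
  unfold vv hh
  rw [dif_pos hγ, dif_pos hγ, map_smul, norm_smul, norm_inv, Complex.norm_real, Real.norm_eq_abs,
    abs_of_nonneg (Real.sqrt_nonneg _), mul_pow, inv_pow, Real.sq_sqrt (h.cR_pos hγ).le]
  field_simp

lemma sum_hh_le {ι : Type*} (b : HilbertBasis ι ℂ (bergman Ω))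
    (H : bergman Ω →L[ℂ] Lp ℂ 2 (volume.restrict Ω)) (hs : Summable fun i => ‖H (b i)‖ ^ 2)
    {F : Finset (Fin n → ℤ)} (hF : ∀ γ ∈ F, SS Ω γ) : ∑ γ ∈ F, hh H γ ≤ ∑' i, ‖H (b i)‖ ^ 2 := by
  refine le_trans (le_of_eq ?_) (hs_bound b H hs F (vv Ω) (h.orthonormal_vv hF))
  exact Finset.sum_congr rfl fun γ hγ => (h.norm_H_vv H (hF γ hγ)).symm

variable {f : (Fin n → ℂ) → ℂ} (hf : DifferentiableOn ℂ f Ω)
    {H : bergman Ω →L[ℂ] Lp ℂ 2 (volume.restrict Ω)} (hH : IsHankelExtension Ω f H)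
    {β : Fin n → ℤ} {c : ℂ} (hc : ∀ z ∈ Ω, z ∈ star n → avg f β z = c * mon β z)

include hf hH hc

lemma hh_notMem (hc0 : c ≠ 0) {α : Fin n → ℤ} (hα : SS Ω α) (hγ : ¬ SS Ω (α - β)) :
    cR Ω (α + β) / cR Ω α ≤ hh H α / ‖c‖ ^ 2 := by
  have h1 := h.bound_notMem hf hH hc hα.u hα.u_spec hc0 hγ
  have h2 := h.cR_pos hα
  have h3 : 0 < ‖c‖ ^ 2 := pow_pos (norm_pos_iff.2 hc0) 2
  unfold hh
  rw [dif_pos hα, le_div_iff₀ h3, div_mul_eq_mul_div, mul_comm]
  gcongr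

lemma hh_mem (hc0 : c ≠ 0) {α : Fin n → ℤ} (hα : SS Ω α) (hγ : SS Ω (α - β)) :
    cR Ω (α + β) / cR Ω α - cR Ω α / cR Ω (α - β) ≤ hh H α / ‖c‖ ^ 2 := by
  have h1 := h.bound_mem hf hH hc hα.u hα.u_spec hc0 hγ
  have h2 := h.cR_pos hα
  have h4 := h.cR_pos hγ
  have h3 : 0 < ‖c‖ ^ 2 := pow_pos (norm_pos_iff.2 hc0) 2
  unfold hh
  rw [dif_pos hα, le_div_iff₀ h3, le_div_iff₀ h2]
  refine le_trans (le_of_eq ?_) h1
  field_simp

/-- every line contributes at least a fixed amount to the Hilbert-Schmidt norm -/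
lemma line_bound (hc0 : c ≠ 0) (hβ : β ≠ 0) : ∃ δ : ℝ, 0 < δ ∧ ∀ α₀, SS Ω α₀ →
    ∃ (k₀ : ℤ) (m : ℕ), (∀ i : ℕ, SS Ω (α₀ + (k₀ + i) • β)) ∧
      δ ≤ ∑ i ∈ Finset.range m, hh H (α₀ + (k₀ + i) • β) := by
  obtain ⟨z₁, hz₁, z₂, hz₂, hs₁, hs₂, hlt⟩ := h.exists_two hβ
  obtain ⟨a, ha1, ha⟩ := exists_between hlt
  obtain ⟨a', ha', ha2⟩ := exists_between ha
  obtain ⟨b', hb', hb3⟩ := exists_between ha2
  obtain ⟨b, hb, hb2⟩ := exists_between hb3
  have ha0 : 0 < a := lt_of_le_of_lt (by positivity) ha1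
  have ha'0 : 0 < a' := ha0.trans ha'
  have hb'0 : 0 < b' := ha'0.trans hb'
  have hcn : 0 < ‖c‖ ^ 2 := pow_pos (norm_pos_iff.2 hc0) 2
  refine ⟨‖c‖ ^ 2 * (b' - a'), mul_pos hcn (by linarith), fun α₀ hα₀ => ?_⟩
  have hup : ∀ k : ℤ, SS Ω (α₀ + k • β) → SS Ω (α₀ + (k + 1) • β) := by
    intro k hk
    have h1 := h.SS_add hf hH hc hk.u hk.u_spec hc0
    rwa [add_assoc, ← add_one_zsmul] at h1
  obtain ⟨k₀, m, hS, hV⟩ := line (s := fun k => SS Ω (α₀ + k • β))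
    (c := fun k => cR Ω (α₀ + k • β)) (a' := a') (b' := b') (by simpa using hα₀) hup ha'0
    (by
      intro N₀ hN₀
      have hS : ∀ m : ℕ, SS Ω (α₀ + N₀ • β + (m : ℤ) • β) := by
        intro m
        induction m with
        | zero => simpa using hN₀
        | succ m ih =>
          have h2 := hup (N₀ + m) (by rwa [add_smul, ← add_assoc])
          have e : α₀ + N₀ • β + ((m + 1 : ℕ) : ℤ) • β = α₀ + (N₀ + m + 1) • β := by
            push_cast
            module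
          rwa [e]
      obtain ⟨N, hN⟩ := h.growth_line hb'0 hb hS hz₂ hs₂ hb2
      refine ⟨N₀ + N, by omega, ?_⟩
      have e1 : α₀ + N₀ • β + ((N + 1 : ℕ) : ℤ) • β = α₀ + (N₀ + N + 1) • β := by
        push_cast
        module
      have e2 : α₀ + N₀ • β + (N : ℤ) • β = α₀ + (N₀ + N) • β := by
        module
      rw [e1, e2] at hN
      exact hN)
    (by
      intro hall
      have hS : ∀ m : ℕ, SS Ω (α₀ + (m : ℤ) • (-β)) := by
        intro m
        have := hall (-(m : ℤ))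
        rwa [neg_smul, ← smul_neg] at this
      have h5 : a⁻¹ < ‖mon (-β) z₁‖ ^ 2 := by
        have e : mon (-β) z₁ = (mon β z₁)⁻¹ := by
          have h6 := mon_add (γ := -β) (δ := β) hs₁
          rw [neg_add_cancel, mon_zero] at h6
          exact eq_inv_of_mul_eq_one_left h6.symm
        rw [e, norm_inv, inv_pow]
        exact inv_strictAnti₀ (pow_pos (norm_pos_iff.2 (mon_ne_zero hs₁)) 2) ha1
      obtain ⟨N, hN⟩ := h.growth_line (b' := a'⁻¹) (b := a⁻¹) (inv_pos.2 ha'0)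
        (inv_strictAnti₀ ha0 ha') hS hz₁ hs₁ h5
      refine ⟨-((N : ℤ) + 1), by omega, ?_⟩
      have e1 : α₀ + ((N + 1 : ℕ) : ℤ) • (-β) = α₀ + (-((N : ℤ) + 1)) • β := by
        push_cast
        module
      have e2 : α₀ + (N : ℤ) • (-β) = α₀ + (-((N : ℤ) + 1) + 1) • β := by
        module
      have p1 := h.cR_pos (hS (N + 1))
      have p2 := h.cR_pos (hS N)
      rw [e1] at hN p1
      rw [e2] at hN p2
      rw [div_le_iff₀ p1]
      rw [inv_le_iff_one_le_mul₀ ha'0, div_mul_eq_mul_div, le_div_iff₀ p2, one_mul] at hN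
      linarith)
  refine ⟨k₀, m, hS, ?_⟩
  have h7 := hV (fun k => hh H (α₀ + k • β) / ‖c‖ ^ 2)
    (fun k hk hk' => by
      have e1 : α₀ + (k + 1) • β = α₀ + k • β + β := by module
      have e2 : α₀ + (k - 1) • β = α₀ + k • β - β := by module
      simp only [e1, e2] at hk' ⊢
      exact h.hh_mem hf hH hc hc0 hk hk')
    (fun k hk hk' => by
      have e1 : α₀ + (k + 1) • β = α₀ + k • β + β := by module
      have e2 : α₀ + (k - 1) • β = α₀ + k • β - β := by module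
      simp only [e1, e2] at hk' ⊢
      exact h.hh_notMem hf hH hc hc0 hk hk')
  rw [← Finset.sum_div, le_div_iff₀ hcn] at h7
  rw [mul_comm]
  exact h7

end Dom

end Pool.Agent.Zk71.Rh
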