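import Mathlib

set_option autoImplicit false

open MeasureTheory

namespace Pool.Agent.Zk71.Rh

variable {n : ℕ}

/-- Reinhardt sets: invariant under rotations of each coordinate. -/
def Reinhardt (Ω : Set (Fin n → ℂ)) : Prop :=
  ∀ z ∈ Ω, ∀ θ : Fin n → ℝ, (fun j => Complex.exp (θ j * Complex.I) * z j) ∈ Ω

/-- The Hilbert space `L²(Ω)` of complex functions, for Lebesgue measure. -/
def L2 (Ω : Set (Fin n → ℂ)) : Type := Lp ℂ 2 (volume.restrict Ω)

/-- the norm of `L²(Ω)` is Mathlib's norm of `Lp` -/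
noncomputable instance instL2 (Ω : Set (Fin n → ℂ)) : NormedAddCommGroup (L2 Ω) :=
  (Lp.instNormedAddCommGroup : NormedAddCommGroup (Lp ℂ 2 (volume.restrict Ω)))

/-- the inner product of `L²(Ω)` is Mathlib's inner product of `Lp` -/
noncomputable instance instL2' (Ω : Set (Fin n → ℂ)) : InnerProductSpace ℂ (L2 Ω) :=
  (L2.innerProductSpace : InnerProductSpace ℂ (Lp ℂ 2 (volume.restrict Ω)))

/-- a function which represents an element of `L²(Ω)` -/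
noncomputable def L2.fn {Ω : Set (Fin n → ℂ)} (u : L2 Ω) : (Fin n → ℂ) → ℂ :=
  (show Lp ℂ 2 (volume.restrict Ω) from u)

/-- The Bergman space `A²(Ω)`: the classes in `L²(Ω)` of holomorphic functions. -/
def A2 (Ω : Set (Fin n → ℂ)) : Submodule ℂ (L2 Ω) where
  carrier := {u | ∃ g : (Fin n → ℂ) → ℂ, DifferentiableOn ℂ g Ω ∧ u.fn =ᵐ[volume.restrict Ω] g}
  add_mem' := by
    rintro u v ⟨g, hg, hu⟩ ⟨k, hk, hv⟩
    refine ⟨fun z => g z + k z, hg.add hk, ?_⟩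
    filter_upwards [hu, hv, Lp.coeFn_add (show Lp ℂ 2 (volume.restrict Ω) from u)
      (show Lp ℂ 2 (volume.restrict Ω) from v)] with z h1 h2 h3
    exact h3.trans (congrArg₂ (· + ·) h1 h2)
  zero_mem' := by
    refine ⟨fun _ => 0, differentiableOn_const 0, ?_⟩
    filter_upwards [Lp.coeFn_zero ℂ 2 (volume.restrict Ω)] with z h1
    exact h1
  smul_mem' := by
    rintro c u ⟨g, hg, hu⟩
    refine ⟨fun z => c * g z, (differentiableOn_const c).mul hg, ?_⟩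
    filter_upwards [hu, Lp.coeFn_smul c (show Lp ℂ 2 (volume.restrict Ω) from u)] with z h1 h3
    exact h3.trans (congrArg (c * ·) h1)

/-- `v = \bar f g` in `L²(Ω)` -/
def IsConjMul {Ω : Set (Fin n → ℂ)} (f : (Fin n → ℂ) → ℂ) (g v : L2 Ω) : Prop :=
  v.fn =ᵐ[volume.restrict Ω] fun z => (starRingEnd ℂ) (f z) * g.fn z

/-- `w = (I - P) v`: the vector `w` is orthogonal to `A²(Ω)` and `v - w ∈ A²(Ω)` -/
def IsResidual {Ω : Set (Fin n → ℂ)} (v w : L2 Ω) : Prop :=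
  v - w ∈ A2 Ω ∧ ∀ u ∈ A2 Ω, inner ℂ u w = 0

/-- the domain of the Hankel operator: the `g ∈ A²(Ω)` with `\bar f g ∈ L²(Ω)` -/
def hankelDomain (Ω : Set (Fin n → ℂ)) (f : (Fin n → ℂ) → ℂ) : Set (A2 Ω) :=
  {g | ∃ v : L2 Ω, IsConjMul f g.1 v}

/-- `H` extends the Hankel operator `H_{\bar f} g = (I - P)(\bar f g)` -/
def ExtendsHankel {Ω : Set (Fin n → ℂ)} (f : (Fin n → ℂ) → ℂ) (H : A2 Ω →L[ℂ] L2 Ω) : Prop :=
  ∀ (g : A2 Ω) (v : L2 Ω), IsConjMul f g.1 v → IsResidual v (H g)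

/-- Hilbert-Schmidt operators on the Bergman space -/
def IsHS {Ω : Set (Fin n → ℂ)} (H : A2 Ω →L[ℂ] L2 Ω) : Prop :=
  ∃ (ι : Type) (b : HilbertBasis ι ℂ (A2 Ω)), Summable fun i => ‖H (b i)‖ ^ 2

end Pool.Agent.Zk71.Rh
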